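import Pool.Agent.Q122.Harary.Numerics

set_option autoImplicit false

/-!
# Almost all graphs are typical
-/

namespace Q122.Harary

open Finset

open Classical in
/-- Typical graphs. -/
def Typ (n : ℕ) (G : SimpleGraph (Fin n)) : Prop :=
  NoDisj G (kf n) ∧ ∀ m ∈ Mf n,
    2 * (((univ : Finset (Fin n)).powersetCard (qf m)).filter fun Q =>
      NonSep G (3 * kf n) Q).card < n.choose (qf m)

lemma nodisj_bound {n : ℕ} (h : Big n) :
    n * num (fun G : SimpleGraph (Fin n) => ¬ NoDisj G (kf n)) ≤ 2 ^ (n.choose 2) := by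
  have h1 := nodisj_count (V := Fin n) (kf n)
  rw [card_graph, card_graph, Fintype.card_fin] at h1
  set l := lf n with hl
  have hl1 : 1 ≤ l := lf_pos n
  have hnl : n ≤ 2 ^ l := (lt_two_pow_lf n).le
  have h2 : n ^ (2 * kf n) * n ≤ 2 ^ ((kf n).choose 2) := by
    calc n ^ (2 * kf n) * n = n ^ (2 * (8 * l) + 1) := by
          rw [pow_succ]
          rfl
      _ ≤ (2 ^ l) ^ (2 * (8 * l) + 1) := Nat.pow_le_pow_left hnl _
      _ = 2 ^ (l * (2 * (8 * l) + 1)) := (pow_mul _ _ _).symm
      _ ≤ 2 ^ ((kf n).choose 2) := by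
          refine Nat.pow_le_pow_right (by norm_num) ?_
          have h3 : (kf n).choose 2 = 4 * l * (8 * l - 1) := by
            rw [Nat.choose_two_right]
            have : kf n * (kf n - 1) = 2 * (4 * l * (8 * l - 1)) := by
              unfold kf
              rw [← hl]
              ring
            rw [this, Nat.mul_div_cancel_left _ (by norm_num)]
          rw [h3]
          obtain ⟨d, hd⟩ : ∃ d, 8 * l = d + 1 := ⟨8 * l - 1, by omega⟩
          have h4 : 8 * l - 1 = d := by omega
          rw [h4]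
          nlinarith
  have hpos : 0 < 2 ^ ((kf n).choose 2) := by positivity
  refine Nat.le_of_mul_le_mul_right (c := 2 ^ ((kf n).choose 2)) ?_ hpos
  calc n * num (fun G : SimpleGraph (Fin n) => ¬ NoDisj G (kf n)) * 2 ^ ((kf n).choose 2)
      = n * (num (fun G : SimpleGraph (Fin n) => ¬ NoDisj G (kf n)) * 2 ^ ((kf n).choose 2)) := by
        ring
    _ ≤ n * (n ^ (2 * kf n) * 2 ^ (n.choose 2)) := Nat.mul_le_mul_left _ h1
    _ = (n ^ (2 * kf n) * n) * 2 ^ (n.choose 2) := by ring
    _ ≤ 2 ^ ((kf n).choose 2) * 2 ^ (n.choose 2) := Nat.mul_le_mul_right _ h2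
    _ = _ := by ring

open Classical in
lemma frac_bound {n m : ℕ} (h : Big n) (hm : m ∈ Mf n) :
    n * n * num (fun G : SimpleGraph (Fin n) => n.choose (qf m) ≤
      2 * (((univ : Finset (Fin n)).powersetCard (qf m)).filter fun Q =>
        NonSep G (3 * kf n) Q).card) ≤ 2 ^ (n.choose 2) := by
  set l := lf n with hl
  set q := qf m with hq
  have hl1 : 1 ≤ l := lf_pos n
  have hn1 : n + 1 ≤ 2 ^ l := lt_two_pow_lf n
  have hnl : n ≤ 2 ^ l := by omega
  have htf := tf_le h hm
  have hmn := (mem_Mf.1 hm).1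
  have hqn : q ≤ n := by omega
  obtain ⟨s, hs⟩ : ∃ s, 3 * kf n = s + 1 := ⟨3 * kf n - 1, by unfold kf; omega⟩
  rw [hs]
  have h1 := frac_count (V := Fin n) q s (by rw [Fintype.card_fin]; exact hqn)
  rw [card_graph, Fintype.card_fin] at h1
  have hsl : s ≤ 24 * l := by
    unfold kf at hs
    omega
  have h2 : n * n * (8 * n ^ 2 * (q + 1) ^ s) ≤ 2 ^ q := by
    calc n * n * (8 * n ^ 2 * (q + 1) ^ s) = 8 * (n ^ 4 * (q + 1) ^ s) := by ring
      _ ≤ 2 ^ 3 * ((2 ^ l) ^ 4 * (2 ^ l) ^ (24 * l)) := by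
          refine Nat.mul_le_mul (by norm_num) (Nat.mul_le_mul (Nat.pow_le_pow_left hnl 4) ?_)
          calc (q + 1) ^ s ≤ (2 ^ l) ^ s := Nat.pow_le_pow_left (by omega) s
            _ ≤ (2 ^ l) ^ (24 * l) := Nat.pow_le_pow_right (by positivity) hsl
      _ = 2 ^ (3 + (l * 4 + l * (24 * l))) := by
          rw [pow_add 2 3, pow_add 2 (l * 4), pow_mul 2 l 4, pow_mul 2 l (24 * l)]
      _ ≤ 2 ^ q := by
          refine Nat.pow_le_pow_right (by norm_num) ?_
          have := h.2 m hm
          have h3 : l ≤ l ^ 2 := Nat.le_self_pow (by norm_num) l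
          have h4 : l * (24 * l) = 24 * l ^ 2 := by ring
          rw [h4]
          change 32 * l ^ 2 ≤ q at this
          omega
  have hpos : 0 < 2 ^ q := by positivity
  refine Nat.le_of_mul_le_mul_right (c := 2 ^ q) ?_ hpos
  calc n * n * num (fun G : SimpleGraph (Fin n) => n.choose q ≤
        2 * (((univ : Finset (Fin n)).powersetCard q).filter fun Q =>
          NonSep G (s + 1) Q).card) * 2 ^ q
      = n * n * (num (fun G : SimpleGraph (Fin n) => n.choose q ≤
        2 * (((univ : Finset (Fin n)).powersetCard q).filter fun Q =>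
          NonSep G (s + 1) Q).card) * 2 ^ q) := by ring
    _ ≤ n * n * (8 * n ^ 2 * (q + 1) ^ s * 2 ^ (n.choose 2)) := Nat.mul_le_mul_left _ h1
    _ = n * n * (8 * n ^ 2 * (q + 1) ^ s) * 2 ^ (n.choose 2) := by ring
    _ ≤ 2 ^ q * 2 ^ (n.choose 2) := Nat.mul_le_mul_right _ h2
    _ = _ := by ring

lemma num_or_le {V : Type} [Fintype V] [DecidableEq V] (p q : SimpleGraph V → Prop) :
    num (fun G => p G ∨ q G) ≤ num p + num q := by
  classical
  unfold num
  refine le_trans (card_le_card fun G hG => ?_) (card_union_le _ _)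
  rw [@mem_filter _ _ (Classical.decPred _)] at hG
  rw [mem_union, mem_filter, mem_filter]
  rcases hG.2 with h | h
  · exact Or.inl ⟨mem_univ _, h⟩
  · exact Or.inr ⟨mem_univ _, h⟩

theorem atyp_bound {n : ℕ} (h : Big n) :
    n * num (fun G : SimpleGraph (Fin n) => ¬ Typ n G) ≤ 2 * 2 ^ (n.choose 2) := by
  classical
  set p : ℕ → SimpleGraph (Fin n) → Prop := fun m G => n.choose (qf m) ≤
      2 * (((univ : Finset (Fin n)).powersetCard (qf m)).filter fun Q =>
        NonSep G (3 * kf n) Q).card with hp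
  have h1 : num (fun G : SimpleGraph (Fin n) => ¬ Typ n G) ≤
      num (fun G : SimpleGraph (Fin n) => ¬ NoDisj G (kf n)) +
        num (fun G : SimpleGraph (Fin n) => ∃ m : Mf n, p m G) := by
    refine le_trans (num_mono fun G hG => ?_) (num_or_le _ _)
    by_contra hcon
    push Not at hcon
    refine hG ⟨hcon.1, fun m hm => ?_⟩
    have := hcon.2 ⟨m, hm⟩
    rw [hp] at this
    simp only [not_le] at this
    convert this using 3
  have h2 : num (fun G : SimpleGraph (Fin n) => ∃ m : Mf n, p m G) ≤ ∑ m : Mf n, num (p m) :=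
    num_exists_le _
  have h3 : n * (n * ∑ m : Mf n, num (p m)) ≤ n * 2 ^ (n.choose 2) := by
    rw [← mul_assoc, mul_sum]
    calc ∑ m : Mf n, n * n * num (p m) ≤ ∑ _m : Mf n, 2 ^ (n.choose 2) := by
          refine sum_le_sum fun m _ => ?_
          have := frac_bound h m.2
          convert this using 6
      _ = (Mf n).card * 2 ^ (n.choose 2) := by simp
      _ ≤ n * 2 ^ (n.choose 2) := by
          refine Nat.mul_le_mul_right _ ?_
          exact (card_filter_le _ _).trans (card_range n).le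
  have h4 : n * ∑ m : Mf n, num (p m) ≤ 2 ^ (n.choose 2) := Nat.le_of_mul_le_mul_left h3 h.pos
  calc n * num (fun G : SimpleGraph (Fin n) => ¬ Typ n G)
      ≤ n * (num (fun G : SimpleGraph (Fin n) => ¬ NoDisj G (kf n)) + ∑ m : Mf n, num (p m)) :=
        Nat.mul_le_mul_left _ (h1.trans (Nat.add_le_add_left h2 _))
    _ = n * num (fun G : SimpleGraph (Fin n) => ¬ NoDisj G (kf n)) + n * ∑ m : Mf n, num (p m) :=
        Nat.mul_add _ _ _
    _ ≤ 2 ^ (n.choose 2) + 2 ^ (n.choose 2) := Nat.add_le_add (nodisj_bound h) h4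
    _ = _ := by ring

end Q122.Harary
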