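import Mathlib

set_option autoImplicit false

/-!
# The number of labelled graphs
-/

namespace Q122.Harary

open Finset

/-- Labelled graphs correspond to sets of non-diagonal unordered pairs. -/
noncomputable def graphEquiv (V : Type) : SimpleGraph V ≃ Set {e : Sym2 V // ¬ e.IsDiag} where
  toFun G := {e | e.1 ∈ G.edgeSet}
  invFun s := SimpleGraph.fromEdgeSet (Subtype.val '' s)
  left_inv G := by
    ext a b
    rw [SimpleGraph.fromEdgeSet_adj]
    constructor
    · rintro ⟨⟨e, he, h⟩, -⟩
      have : e.1 ∈ G.edgeSet := he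
      rw [h] at this
      exact this
    · intro h
      exact ⟨⟨⟨s(a, b), by simpa using h.ne⟩, h, rfl⟩, h.ne⟩
  right_inv s := by
    ext e
    show e.1 ∈ (SimpleGraph.fromEdgeSet (Subtype.val '' s)).edgeSet ↔ _
    rw [SimpleGraph.edgeSet_fromEdgeSet]
    constructor
    · rintro ⟨⟨e', he', h⟩, -⟩
      have : e' = e := Subtype.ext h
      rwa [this] at he'
    · intro h
      exact ⟨⟨e, h, rfl⟩, e.2⟩

lemma card_graph (n : ℕ) : Fintype.card (SimpleGraph (Fin n)) = 2 ^ (n.choose 2) := by
  classical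
  have h1 : Fintype.card (SimpleGraph (Fin n)) =
      Fintype.card (Set {e : Sym2 (Fin n) // ¬ e.IsDiag}) := Fintype.card_congr (graphEquiv (Fin n))
  rw [h1, Fintype.card_set, Sym2.card_subtype_not_diag, Fintype.card_fin]

lemma card_graph_le (t : ℕ) : Fintype.card (SimpleGraph (Fin t)) ≤ 2 ^ (t ^ 2) := by
  rw [card_graph]
  exact Nat.pow_le_pow_right (by norm_num) (Nat.choose_le_pow t 2)

end Q122.Harary
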