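import Mathlib

set_option autoImplicit false

/-!
# Harary polynomials and almost completeness: definitions
-/

namespace Q122.Harary

open Filter Topology

/-- A graph property: a class of simple graphs closed under isomorphism. (Only its finite members
matter below.) -/
structure GraphProperty where
  /-- membership of a graph in the class -/
  Mem : ∀ {V : Type}, SimpleGraph V → Prop
  /-- the class is closed under isomorphism -/
  iso_closed : ∀ {V W : Type} (G : SimpleGraph V) (H : SimpleGraph W),
    Nonempty (G ≃g H) → Mem G → Mem H

/-- `hcount P G i` is the number of partitions of the vertex set of `G` into exactly `i` nonempty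
blocks such that the subgraph induced on each block has the property `P`. -/
noncomputable def hcount (P : GraphProperty) {V : Type} [Fintype V] [DecidableEq V]
    (G : SimpleGraph V) (i : ℕ) : ℕ :=
  Nat.card {π : Finpartition (Finset.univ : Finset V) //
    π.parts.card = i ∧ ∀ B ∈ π.parts, P.Mem (G.induce (↑B : Set V))}

/-- The Harary polynomial `∑ i, hᵢ · k (k-1) ⋯ (k-i+1)` of `G` for the property `P`. -/
noncomputable def hararyPoly (P : GraphProperty) {V : Type} [Fintype V] [DecidableEq V]
    (G : SimpleGraph V) : Polynomial ℤ :=
  ∑ i ∈ Finset.range (Fintype.card V + 1), (hcount P G i : ℤ) • descPochhammer ℤ i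

/-- `G` is determined up to isomorphism by its Harary polynomial for the property `P`, among all
finite simple graphs. -/
def HararyUnique (P : GraphProperty) {V : Type} [Fintype V] [DecidableEq V]
    (G : SimpleGraph V) : Prop :=
  ∀ (W : Type) [Fintype W] [DecidableEq W] (H : SimpleGraph W),
    hararyPoly P H = hararyPoly P G → Nonempty (G ≃g H)

/-- The Harary polynomial of `P` is almost complete for `𝔾(n, 1/2)`: the proportion of the labelled
graphs on `n` vertices that are determined by their Harary polynomial tends to one. -/
def AlmostComplete (P : GraphProperty) : Prop :=
  Tendsto (fun n : ℕ => (Nat.card {G : SimpleGraph (Fin n) // HararyUnique P G} : ℝ) /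
    2 ^ (n.choose 2)) atTop (𝓝 1)

end Q122.Harary
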