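import Pool.Agent.Q122.Harary.Defs

set_option autoImplicit false

namespace Q122.Harary

open Finset Polynomial

/-! ### Isomorphism invariance of `hcount` -/

/-- The order isomorphism of finsets induced by an equivalence. -/
def finsetOI {V W : Type} (e : V ≃ W) : Finset V ≃o Finset W where
  toEquiv := e.finsetCongr
  map_rel_iff' := by
    intro a b
    simp

/-- Transport of a partition along an equivalence. -/
def mapPart {V W : Type} [Fintype V] [DecidableEq V] [Fintype W] [DecidableEq W] (e : V ≃ W)
    (π : Finpartition (univ : Finset V)) : Finpartition (univ : Finset W) :=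
  (π.map (finsetOI e)).copy (by simp [finsetOI])

lemma mapPart_parts {V W : Type} [Fintype V] [DecidableEq V] [Fintype W] [DecidableEq W]
    (e : V ≃ W) (π : Finpartition (univ : Finset V)) :
    (mapPart e π).parts = π.parts.map (finsetOI e).toEquiv.toEmbedding := rfl

lemma mapPart_injective {V W : Type} [Fintype V] [DecidableEq V] [Fintype W] [DecidableEq W]
    (e : V ≃ W) : Function.Injective (mapPart e) := by
  intro π π' h
  apply Finpartition.ext
  have := congrArg Finpartition.parts h
  rw [mapPart_parts, mapPart_parts] at this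
  exact Finset.map_injective _ this

lemma induce_iso {V W : Type} {G : SimpleGraph V} {H : SimpleGraph W} (e : G ≃g H)
    (B : Finset V) :
    Nonempty (G.induce (↑B : Set V) ≃g H.induce (↑(B.map e.toEquiv.toEmbedding) : Set W)) := by
  refine ⟨⟨⟨fun x => ⟨e x.1, ?_⟩, fun y => ⟨e.symm y.1, ?_⟩, ?_, ?_⟩, ?_⟩⟩
  · simp only [coe_map, Set.mem_image, mem_coe]
    exact ⟨x.1, x.2, rfl⟩
  · have h := y.2
    simp only [coe_map, Set.mem_image, mem_coe] at h
    obtain ⟨a, ha, hay⟩ := h
    have : e.symm y.1 = a := by
      rw [← hay]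
      exact e.symm_apply_apply a
    rw [this]
    exact ha
  · intro x
    ext
    simp
  · intro y
    ext
    simp
  · intro a b
    simpa using e.map_adj_iff

lemma hcount_le_of_iso (P : GraphProperty) {V W : Type} [Fintype V] [DecidableEq V] [Fintype W]
    [DecidableEq W] {G : SimpleGraph V} {H : SimpleGraph W} (e : G ≃g H) (i : ℕ) :
    hcount P G i ≤ hcount P H i := by
  unfold hcount
  refine Nat.card_le_card_of_injective (fun π => ⟨mapPart e.toEquiv π.1, ?_, ?_⟩) ?_
  · rw [mapPart_parts, card_map]
    exact π.2.1
  · intro B hB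
    rw [mapPart_parts, mem_map] at hB
    obtain ⟨A, hA, rfl⟩ := hB
    exact P.iso_closed _ _ (induce_iso e A) (π.2.2 A hA)
  · intro π π' h
    simp only [Subtype.mk.injEq] at h
    exact Subtype.ext (mapPart_injective _ h)

lemma hcount_iso (P : GraphProperty) {V W : Type} [Fintype V] [DecidableEq V] [Fintype W]
    [DecidableEq W] {G : SimpleGraph V} {H : SimpleGraph W} (e : G ≃g H) (i : ℕ) :
    hcount P G i = hcount P H i :=
  le_antisymm (hcount_le_of_iso P e i) (hcount_le_of_iso P e.symm i)

/-! ### Coefficients in the falling factorial basis -/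

lemma ff_inj (f g : ℕ → ℤ) (N : ℕ)
    (h : ∑ i ∈ range N, f i • descPochhammer ℤ i = ∑ i ∈ range N, g i • descPochhammer ℤ i) :
    ∀ i < N, f i = g i := by
  intro k
  induction k using Nat.strong_induction_on with
  | _ k ih =>
    intro hk
    have h1 := congrArg (Polynomial.eval (k : ℤ)) h
    rw [eval_finsetSum, eval_finsetSum] at h1
    have e : ∀ (u : ℕ → ℤ), ∑ i ∈ range N, eval (k : ℤ) (u i • descPochhammer ℤ i) =
        ∑ i ∈ range k, u i * (k.descFactorial i : ℤ) + u k * (k.descFactorial k : ℤ) := by
      intro u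
      have e1 : ∀ i, eval (k : ℤ) (u i • descPochhammer ℤ i) = u i * (k.descFactorial i : ℤ) := by
        intro i
        have := descPochhammer_eval_eq_descFactorial ℤ k i
        rw [eval_smul, this, smul_eq_mul]
      rw [sum_congr rfl fun i _ => e1 i, ← sum_range_succ]
      refine (sum_subset (range_mono (by omega)) ?_).symm
      intro i _ hi
      rw [mem_range, not_lt] at hi
      rw [Nat.descFactorial_eq_zero_iff_lt.2 (by omega)]
      simp
    rw [e f, e g, sum_congr rfl fun i hi => by
      rw [ih i (mem_range.1 hi) (lt_trans (mem_range.1 hi) hk)]] at h1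
    have h2 : f k * (k.descFactorial k : ℤ) = g k * (k.descFactorial k : ℤ) := by linarith
    refine mul_right_cancel₀ ?_ h2
    rw [Nat.descFactorial_self]
    exact_mod_cast k.factorial_ne_zero

lemma hcount_eq_zero (P : GraphProperty) {V : Type} [Fintype V] [DecidableEq V]
    (G : SimpleGraph V) (i : ℕ) (hi : Fintype.card V < i) : hcount P G i = 0 := by
  unfold hcount
  rw [Nat.card_eq_zero]
  left
  refine ⟨fun π => ?_⟩
  have := π.1.card_parts_le_card
  rw [π.2.1, card_univ] at this
  omega

lemma hararyPoly_eq (P : GraphProperty) {V : Type} [Fintype V] [DecidableEq V]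
    (G : SimpleGraph V) (N : ℕ) (hN : Fintype.card V < N) :
    hararyPoly P G = ∑ i ∈ range N, (hcount P G i : ℤ) • descPochhammer ℤ i := by
  unfold hararyPoly
  refine sum_subset (range_mono (by omega)) ?_
  intro i _ hi
  rw [mem_range, not_lt] at hi
  rw [hcount_eq_zero P G i (by omega)]
  simp

lemma hcount_eq_of_poly_eq (P : GraphProperty) {V W : Type} [Fintype V] [DecidableEq V]
    [Fintype W] [DecidableEq W] {G : SimpleGraph V} {H : SimpleGraph W}
    (h : hararyPoly P G = hararyPoly P H) (i : ℕ) : hcount P G i = hcount P H i := by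
  set N := max (max (Fintype.card V) (Fintype.card W)) i + 1 with hN
  rw [hararyPoly_eq P G N (by omega), hararyPoly_eq P H N (by omega)] at h
  have := ff_inj (fun i => (hcount P G i : ℤ)) (fun i => (hcount P H i : ℤ)) N h i (by omega)
  exact_mod_cast this

/-- If the one-vertex graph has the property then the number of vertices can be read off. -/
lemma hcount_card (P : GraphProperty) (hP : ∀ (V : Type) (G : SimpleGraph V), Nat.card V = 1 →
      P.Mem G) {V : Type} [Fintype V] [DecidableEq V] (G : SimpleGraph V) :
    hcount P G (Fintype.card V) = 1 := by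
  unfold hcount
  rw [Nat.card_eq_one_iff_unique]
  refine ⟨⟨fun π π' => ?_⟩, ⟨⟨⊥, ?_, ?_⟩⟩⟩
  · have key : ∀ ρ : Finpartition (univ : Finset V), ρ.parts.card = Fintype.card V → ρ = ⊥ := by
      intro ρ hρ
      have h1 : ∀ B ∈ ρ.parts, B.card = 1 := by
        by_contra hcon
        push Not at hcon
        obtain ⟨B, hB, hB1⟩ := hcon
        have h2 := ρ.sum_card_parts
        have h3 : ρ.parts.card < ∑ i ∈ ρ.parts, i.card := by
          rw [card_eq_sum_ones]
          refine sum_lt_sum (fun i hi => ?_) ⟨B, hB, ?_⟩
          · exact (ρ.nonempty_of_mem_parts hi).card_pos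
          · have := (ρ.nonempty_of_mem_parts hB).card_pos
            omega
        rw [h2, card_univ] at h3
        omega
      apply Finpartition.ext
      ext B
      rw [Finpartition.mem_bot_iff]
      constructor
      · intro hB
        obtain ⟨a, ha⟩ := card_eq_one.1 (h1 B hB)
        exact ⟨a, mem_univ a, ha.symm⟩
      · rintro ⟨a, -, rfl⟩
        obtain ⟨t, ht, hat⟩ := ρ.exists_mem (mem_univ a)
        obtain ⟨b, hb⟩ := card_eq_one.1 (h1 t ht)
        rw [hb, mem_singleton] at hat
        rw [hat, ← hb]
        exact ht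
    apply Subtype.ext
    rw [key π.1 π.2.1, key π'.1 π'.2.1]
  · rw [Finpartition.card_bot, card_univ]
  · intro B hB
    rw [Finpartition.mem_bot_iff] at hB
    obtain ⟨a, -, rfl⟩ := hB
    refine hP _ _ ?_
    simp

end Q122.Harary
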