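import Pool.Agent.Q122.Harary.Triang

set_option autoImplicit false

/-!
# The method of conditional expectations, over infinitely many levels
-/

namespace Q122.Harary

open Finset
open scoped ENNReal

set_option linter.unusedSectionVars false

section

variable {X : ℕ → Type} {Ω : ℕ → Type} [∀ m, Fintype (Ω m)] [∀ m, Nonempty (Ω m)]
  (lv : ∀ m, Ω m → X m)
  {J : ℕ → Type} (I : ∀ n, Finset (J n)) (M : ℕ → Finset ℕ)
  (E : ∀ n, J n → ℕ → (∀ m, X m) → Prop) (q : ℕ → ℕ → ℝ≥0∞) (w : ℕ → ℝ≥0∞)

open Classical in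
/-- The contribution of a pair to the potential. -/
noncomputable def term (j : ℕ) (L : ∀ m, X m) (n : ℕ) (p : J n) : ℝ≥0∞ :=
  w n * (if ∀ m ∈ M n, m < j → E n p m L then 1 else 0) *
    ∏ m ∈ (M n).filter (fun m => j ≤ m), q n m

/-- The potential. -/
noncomputable def pot (j : ℕ) (L : ∀ m, X m) : ℝ≥0∞ :=
  ∑' n, ∑ p ∈ I n, term M E q w j L n p

variable (hE : ∀ n (p : J n) m (L L' : ∀ m, X m), (∀ j ≤ m, L j = L' j) → (E n p m L ↔ E n p m L'))

include hE

lemma term_congr (j : ℕ) (L L' : ∀ m, X m) (h : ∀ i < j, L i = L' i) (n : ℕ) (p : J n) :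
    term M E q w j L n p = term M E q w j L' n p := by
  have key : (∀ m ∈ M n, m < j → E n p m L) ↔ (∀ m ∈ M n, m < j → E n p m L') := by
    refine forall_congr' fun m => forall_congr' fun _ => forall_congr' fun hm => ?_
    exact hE n p m L L' fun i hi => h i (by omega)
  unfold term
  by_cases h1 : ∀ m ∈ M n, m < j → E n p m L
  · rw [if_pos h1, if_pos (key.1 h1)]
  · rw [if_neg h1, if_neg fun h2 => h1 (key.2 h2)]

lemma pot_congr (j : ℕ) (L L' : ∀ m, X m) (h : ∀ i < j, L i = L' i) :
    pot I M E q w j L = pot I M E q w j L' := by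
  unfold pot
  refine tsum_congr fun n => sum_congr rfl fun p _ => term_congr M E q w hE j L L' h n p

variable (hq : ∀ n, ∀ p ∈ I n, ∀ m ∈ M n, ∀ L : ∀ m, X m,
  (Nat.card {ω : Ω m // E n p m (Function.update L m (lv m ω))} : ℝ≥0∞) ≤
    q n m * Fintype.card (Ω m))

include hq

lemma term_avg (j : ℕ) (L : ∀ m, X m) (n : ℕ) (p : J n) (hp : p ∈ I n) :
    ∑ ω : Ω j, term M E q w (j + 1) (Function.update L j (lv j ω)) n p ≤
      Fintype.card (Ω j) * term M E q w j L n p := by
  classical
  have hloc : ∀ ω : Ω j, ∀ m < j, (E n p m (Function.update L j (lv j ω)) ↔ E n p m L) := by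
    intro ω m hm
    refine hE n p m _ _ fun i hi => ?_
    rw [Function.update_of_ne (by omega)]
  by_cases hj : j ∈ M n
  · have hfilt : (M n).filter (fun m => j ≤ m) = insert j ((M n).filter fun m => j + 1 ≤ m) := by
      ext m
      simp only [mem_filter, mem_insert]
      constructor
      · rintro ⟨h1, h2⟩
        by_cases h : m = j
        · exact Or.inl h
        · exact Or.inr ⟨h1, by omega⟩
      · rintro (rfl | ⟨h1, h2⟩)
        · exact ⟨hj, le_rfl⟩
        · exact ⟨h1, by omega⟩
    have hind : ∀ ω : Ω j, (if ∀ m ∈ M n, m < j + 1 → E n p m (Function.update L j (lv j ω))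
        then (1 : ℝ≥0∞) else 0) =
        (if ∀ m ∈ M n, m < j → E n p m L then 1 else 0) *
          (if E n p j (Function.update L j (lv j ω)) then 1 else 0) := by
      intro ω
      have hiff : (∀ m ∈ M n, m < j + 1 → E n p m (Function.update L j (lv j ω))) ↔
          ((∀ m ∈ M n, m < j → E n p m L) ∧ E n p j (Function.update L j (lv j ω))) := by
        constructor
        · intro h
          exact ⟨fun m hm hmj => (hloc ω m hmj).1 (h m hm (by omega)), h j hj (by omega)⟩
        · rintro ⟨h1, h2⟩ m hm hmj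
          by_cases h : m = j
          · subst h
            exact h2
          · exact (hloc ω m (by omega)).2 (h1 m hm (by omega))
      simp only [hiff, ite_and]
      split_ifs <;> simp
    unfold term
    rw [hfilt, prod_insert (by simp)]
    set c := w n * (if ∀ m ∈ M n, m < j → E n p m L then (1 : ℝ≥0∞) else 0) *
      ∏ m ∈ (M n).filter (fun m => j + 1 ≤ m), q n m with hc
    have h1 : ∀ ω : Ω j, w n * (if ∀ m ∈ M n, m < j + 1 → E n p m (Function.update L j (lv j ω))
        then (1 : ℝ≥0∞) else 0) * ∏ m ∈ (M n).filter (fun m => j + 1 ≤ m), q n m =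
        c * (if E n p j (Function.update L j (lv j ω)) then 1 else 0) := by
      intro ω
      rw [hind ω, hc]
      ring
    rw [sum_congr rfl fun ω _ => h1 ω, ← mul_sum]
    have h2 : ∑ ω : Ω j, (if E n p j (Function.update L j (lv j ω)) then (1 : ℝ≥0∞) else 0) =
        (Nat.card {ω : Ω j // E n p j (Function.update L j (lv j ω))} : ℝ≥0∞) := by
      rw [Nat.card_eq_fintype_card, Fintype.card_subtype, sum_boole]
    rw [h2]
    calc _ ≤ c * (q n j * Fintype.card (Ω j)) := by
          gcongr
          exact hq n p hp j hj L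
      _ = _ := by
          rw [hc]
          ring
  · have hfilt : (M n).filter (fun m => j ≤ m) = (M n).filter fun m => j + 1 ≤ m := by
      refine filter_congr fun m hm => ?_
      constructor
      · intro h
        have : m ≠ j := fun h' => hj (h' ▸ hm)
        omega
      · intro h
        omega
    have h1 : ∀ ω : Ω j, term M E q w (j + 1) (Function.update L j (lv j ω)) n p =
        term M E q w j L n p := by
      intro ω
      unfold term
      rw [hfilt]
      congr 2
      refine if_congr ?_ rfl rfl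
      refine forall_congr' fun m => forall_congr' fun hm => ?_
      have hmj : m ≠ j := fun h' => hj (h' ▸ hm)
      constructor
      · intro h h'
        exact (hloc ω m h').1 (h (by omega))
      · intro h h'
        exact (hloc ω m (by omega)).2 (h (by omega))
    rw [sum_congr rfl fun ω _ => h1 ω, sum_const, card_univ, nsmul_eq_mul]

lemma pot_avg (j : ℕ) (L : ∀ m, X m) :
    ∑ ω : Ω j, pot I M E q w (j + 1) (Function.update L j (lv j ω)) ≤
      Fintype.card (Ω j) * pot I M E q w j L := by
  unfold pot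
  rw [← Summable.tsum_finsetSum fun _ _ => ENNReal.summable, ← ENNReal.tsum_mul_left]
  refine ENNReal.tsum_le_tsum fun n => ?_
  rw [sum_comm, mul_sum]
  exact sum_le_sum fun p hp => term_avg lv I M E q w hE hq j L n p hp

lemma pot_step (j : ℕ) (L : ∀ m, X m) :
    ∃ ω : Ω j, pot I M E q w (j + 1) (Function.update L j (lv j ω)) ≤ pot I M E q w j L := by
  by_contra hcon
  push Not at hcon
  have h1 := pot_avg lv I M E q w hE hq j L
  have h2 : ∑ _ω : Ω j, pot I M E q w j L <
      ∑ ω : Ω j, pot I M E q w (j + 1) (Function.update L j (lv j ω)) :=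
    ENNReal.sum_lt_sum_of_nonempty univ_nonempty fun ω _ => hcon ω
  rw [sum_const, card_univ, nsmul_eq_mul] at h2
  exact absurd h2 (not_lt.2 h1)

/-- The derandomisation theorem. -/
theorem exists_levels [∀ m, Nonempty (X m)] :
    ∃ L : ∀ m, X m, ∀ n, w n * (Nat.card {p : J n // p ∈ I n ∧ ∀ m ∈ M n, E n p m L} : ℝ≥0∞) ≤
      ∑' n, ∑ _p ∈ I n, w n * ∏ m ∈ M n, q n m := by
  classical
  set Φ := ∑' n, ∑ _p ∈ I n, w n * ∏ m ∈ M n, q n m with hΦ
  have h0 : ∀ L, pot I M E q w 0 L = Φ := by
    intro L
    unfold pot term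
    rw [hΦ]
    refine tsum_congr fun n => sum_congr rfl fun p _ => ?_
    simp
  have hstep : ∀ j (L : ∀ m, X m), pot I M E q w j L ≤ Φ →
      ∃ ω : Ω j, pot I M E q w (j + 1) (Function.update L j (lv j ω)) ≤ Φ := by
    intro j L hL
    obtain ⟨ω, hω⟩ := pot_step lv I M E q w hE hq j L
    exact ⟨ω, hω.trans hL⟩
  choose! f hf using hstep
  let Λ : ℕ → ∀ m, X m := fun j => Nat.rec (fun m => Classical.arbitrary (X m))
    (fun j L => Function.update L j (lv j (f j L))) j
  have hΛs : ∀ j, Λ (j + 1) = Function.update (Λ j) j (lv j (f j (Λ j))) := fun j => rfl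
  have hΛ : ∀ j, pot I M E q w j (Λ j) ≤ Φ := by
    intro j
    induction j with
    | zero => exact (h0 _).le
    | succ j ih =>
      rw [hΛs]
      exact hf j (Λ j) ih
  have hstab : ∀ i j, i < j → Λ j i = Λ (i + 1) i := by
    intro i j hij
    induction j, hij using Nat.le_induction with
    | base => rfl
    | succ j hj ih =>
      rw [hΛs, Function.update_of_ne (by omega)]
      exact ih
  refine ⟨fun m => Λ (m + 1) m, fun n => ?_⟩
  set L : ∀ m, X m := fun m => Λ (m + 1) m with hL
  obtain ⟨j, hj⟩ : ∃ j, ∀ m ∈ M n, m < j := ⟨(M n).sup id + 1, fun m hm => by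
    have := le_sup (f := id) hm
    simp only [id] at this
    omega⟩
  have h1 : pot I M E q w j L ≤ Φ := by
    rw [← pot_congr I M E q w hE j (Λ j) L fun i hi => hstab i j hi]
    exact hΛ j
  refine le_trans ?_ h1
  refine le_trans ?_ (ENNReal.le_tsum n)
  have h2 : ∀ p ∈ I n, term M E q w j L n p =
      w n * (if ∀ m ∈ M n, E n p m L then 1 else 0) := by
    intro p _
    unfold term
    have h3 : (M n).filter (fun m => j ≤ m) = ∅ := by
      refine filter_eq_empty_iff.2 fun m hm => ?_
      have := hj m hm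
      omega
    rw [h3, prod_empty, mul_one]
    congr 1
    refine if_congr ?_ rfl rfl
    exact forall_congr' fun m => forall_congr' fun hm => ⟨fun h => h (hj m hm), fun h _ => h⟩
  rw [sum_congr rfl h2, ← mul_sum, sum_boole]
  have h4 : Nat.card {p : J n // p ∈ I n ∧ ∀ m ∈ M n, E n p m L} =
      ((I n).filter fun p => ∀ m ∈ M n, E n p m L).card :=
    Nat.subtype_card _ fun p => by simp
  rw [h4]

end

end Q122.Harary
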