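import Pool.Agent.Q122.Harary.Atypical
import Pool.Agent.Q122.Harary.Potential
import Pool.Agent.Q122.Harary.Poly

set_option autoImplicit false

/-!
# A graph property whose Harary polynomial is almost complete
-/

namespace Q122.Harary

open Finset Filter Topology
open scoped ENNReal

/-- The pairs of graphs to be distinguished. -/
abbrev JJ (n : ℕ) : Type := SimpleGraph (Fin n) × SimpleGraph (Fin n)

open Classical in
/-- The pairs which matter. -/
noncomputable def II (n : ℕ) : Finset (JJ n) :=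
  (univ : Finset (JJ n)).filter fun p => Big n ∧ Typ n p.1 ∧ ¬ Nonempty (p.1 ≃g p.2)

/-- The two graphs are not distinguished by the level `m`. -/
def EE (n : ℕ) (p : JJ n) (m : ℕ) (L : Levels) : Prop :=
  2 ≤ m → m ≤ n → hcount (propOf L) p.1 (n - m + 1) = hcount (propOf L) p.2 (n - m + 1)

/-- The random choices. -/
abbrev OO (m : ℕ) : Type := Om (qf m + 2) m (2 ^ (20 * m))

lemma hcount_eq' (L : Levels) {n : ℕ} (G : SimpleGraph (Fin n)) (m : ℕ) (h2 : 2 ≤ m)
    (hm : m ≤ n) : hcount (propOf L) G (n - m + 1) =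
      cntLev G (L m) + restCnt (propOf L) G (n - m + 1) m := by
  have := hcount_eq L G m h2 (by rwa [Fintype.card_fin])
  rwa [Fintype.card_fin] at this

lemma EE_congr (n : ℕ) (p : JJ n) (m : ℕ) (L L' : Levels) (h : ∀ j ≤ m, L j = L' j) :
    EE n p m L ↔ EE n p m L' := by
  unfold EE
  refine forall_congr' fun h2 => forall_congr' fun hm => ?_
  rw [hcount_eq' L p.1 m h2 hm, hcount_eq' L p.2 m h2 hm, hcount_eq' L' p.1 m h2 hm,
    hcount_eq' L' p.2 m h2 hm, h m le_rfl,
    restCnt_congr L L' m (fun j hj => h j hj.le) p.1, restCnt_congr L L' m (fun j hj => h j hj.le) p.2]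

open Classical in
noncomputable instance instFintypeOO (m : ℕ) : Fintype (OO m) := inferInstance

instance (m : ℕ) : Nonempty (OO m) := by
  have : NeZero (2 ^ (20 * m)) := ⟨by positivity⟩
  exact ⟨(fun _ => (⊥, 0), fun _ => 0)⟩

lemma EE_bound (n : ℕ) (p : JJ n) (hp : p ∈ II n) (m : ℕ) (hm : m ∈ Mf n) (L : Levels) :
    (Nat.card {ω : OO m // EE n p m (Function.update L m (lev ω.1 ω.2))} : ℝ≥0∞) ≤
      ENNReal.ofReal (qq (qf m + 2) (kf n) n m) * Fintype.card (OO m) := by
  classical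
  unfold II at hp
  rw [mem_filter] at hp
  obtain ⟨-, hbig, ⟨hnd, hsep⟩, hiso⟩ := hp
  obtain ⟨G, H⟩ := p
  simp only at hnd hsep hiso
  have htm := tf_le hbig hm
  obtain ⟨hmn, hnm⟩ := mem_Mf.1 hm
  have h2 : 2 ≤ m := by omega
  have hn2 : 2 ≤ n := by omega
  have hsep' := hsep m hm
  obtain ⟨T, hTG, hTH⟩ := exists_missing (G := G) (H := H) (k := kf n) (q := qf m)
    (by unfold kf; have := lf_pos n; omega) hnd (by rw [Fintype.card_fin]; omega)
    (by
      rw [Fintype.card_fin]
      convert hsep' using 3) hiso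
  set x : ℤ := (restCnt (propOf L) H (n - m + 1) m : ℤ) - restCnt (propOf L) G (n - m + 1) m with hx
  have hkey : ∀ ω : OO m, EE n (G, H) m (Function.update L m (lev ω.1 ω.2)) ↔
      dif G H ω.1 ω.2 = x := by
    intro ω
    have hr : ∀ F : SimpleGraph (Fin n),
        restCnt (propOf (Function.update L m (lev ω.1 ω.2))) F (n - m + 1) m =
          restCnt (propOf L) F (n - m + 1) m := fun F =>
      restCnt_congr _ _ m (fun j hj => Function.update_of_ne hj.ne _ _) F _
    unfold EE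
    simp only [h2, hmn.le, forall_true_left]
    rw [hcount_eq' _ G m h2 hmn.le, hcount_eq' _ H m h2 hmn.le, hr, hr, Function.update_self]
    unfold dif
    rw [hx]
    constructor
    · intro h
      have : ((cntLev G (lev ω.1 ω.2) : ℤ) + restCnt (propOf L) G (n - m + 1) m) =
        cntLev H (lev ω.1 ω.2) + restCnt (propOf L) H (n - m + 1) m := by exact_mod_cast h
      linarith
    · intro h
      have : ((cntLev G (lev ω.1 ω.2) : ℤ) + restCnt (propOf L) G (n - m + 1) m) =
        cntLev H (lev ω.1 ω.2) + restCnt (propOf L) H (n - m + 1) m := by linarith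
      exact_mod_cast this
  have hcard : Nat.card {ω : OO m // EE n (G, H) m (Function.update L m (lev ω.1 ω.2))} =
      ((univ : Finset (OO m)).filter fun ω => dif G H ω.1 ω.2 = x).card :=
    Nat.subtype_card _ fun ω => by
      rw [mem_filter, hkey ω]
      simp
  have hmain := level_bound (t := qf m + 2) (k := kf n) (B := 20 * m) hn2 htm hmn.le hnm.le G H hnd
    T hTG hTH x
  rw [hcard]
  have h3 : ((((univ : Finset (OO m)).filter fun ω => dif G H ω.1 ω.2 = x).card : ℕ) : ℝ≥0∞) =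
      ENNReal.ofReal ((((univ : Finset (OO m)).filter fun ω => dif G H ω.1 ω.2 = x).card : ℕ) : ℝ) :=
    (ENNReal.ofReal_natCast _).symm
  have h4 : ((Fintype.card (OO m) : ℕ) : ℝ≥0∞) = ENNReal.ofReal (Fintype.card (OO m) : ℝ) :=
    (ENNReal.ofReal_natCast _).symm
  rw [h3, h4, ← ENNReal.ofReal_mul (qq_nonneg _ _ _ _)]
  refine ENNReal.ofReal_le_ofReal ?_
  convert hmain using 3

/-- The weights. -/
noncomputable def ww (n : ℕ) : ℝ≥0∞ := ENNReal.ofReal ((n : ℝ) / 2 ^ (n.choose 2))

lemma total_le (n : ℕ) :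
    ∑ _p ∈ II n, ww n * ∏ m ∈ Mf n, ENNReal.ofReal (qq (qf m + 2) (kf n) n m) ≤
      ENNReal.ofReal ((1 / 2) ^ n) := by
  classical
  by_cases hbig : Big n
  · rw [sum_const, nsmul_eq_mul]
    have h1 : ((II n).card : ℝ) ≤ 2 ^ (n.choose 2) * 2 ^ (n.choose 2) := by
      have : (II n).card ≤ Fintype.card (JJ n) := card_le_univ _
      rw [Fintype.card_prod, card_graph] at this
      exact_mod_cast this
    have h2 : (((II n).card : ℕ) : ℝ≥0∞) = ENNReal.ofReal ((II n).card : ℝ) :=
      (ENNReal.ofReal_natCast _).symm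
    unfold ww
    rw [h2, ← ENNReal.ofReal_prod_of_nonneg fun m _ => qq_nonneg _ _ _ _,
      ← ENNReal.ofReal_mul (by positivity), ← ENNReal.ofReal_mul (by positivity)]
    refine ENNReal.ofReal_le_ofReal ?_
    have hprod : 0 ≤ ∏ m ∈ Mf n, qq (qf m + 2) (kf n) n m :=
      prod_nonneg fun m _ => qq_nonneg _ _ _ _
    calc ((II n).card : ℝ) * ((n : ℝ) / 2 ^ (n.choose 2) * ∏ m ∈ Mf n, qq (qf m + 2) (kf n) n m)
        ≤ (2 ^ (n.choose 2) * 2 ^ (n.choose 2)) *
            ((n : ℝ) / 2 ^ (n.choose 2) * ∏ m ∈ Mf n, qq (qf m + 2) (kf n) n m) :=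
          mul_le_mul_of_nonneg_right h1 (by positivity)
      _ = (n : ℝ) * 2 ^ (n.choose 2) * ∏ m ∈ Mf n, qq (qf m + 2) (kf n) n m := by
          field_simp
      _ ≤ _ := prod_bound hbig
  · have h0 : II n = ∅ := by
      unfold II
      exact filter_eq_empty_iff.2 fun p _ h => hbig h.1
    rw [h0, sum_empty]
    exact bot_le

/-- There is a graph property which distinguishes almost all graphs. -/
lemma exists_good_levels : ∃ (L : Levels) (Φ : ℝ), 0 ≤ Φ ∧ ∀ n : ℕ,
    (n : ℝ) * (Nat.card {p : JJ n // p ∈ II n ∧ ∀ m ∈ Mf n, EE n p m L} : ℝ) ≤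
      Φ * 2 ^ (n.choose 2) := by
  obtain ⟨L, hL⟩ := exists_levels (X := fun m => SimpleGraph (Fin m) → Prop) (Ω := OO)
    (fun m ω => lev ω.1 ω.2) II Mf EE
    (fun n m => ENNReal.ofReal (qq (qf m + 2) (kf n) n m)) ww
    (fun n p m L L' h => EE_congr n p m L L' h) (fun n p hp m hm L => EE_bound n p hp m hm L)
  have hfin : ∑' n, ∑ _p ∈ II n, ww n * ∏ m ∈ Mf n, ENNReal.ofReal (qq (qf m + 2) (kf n) n m) ≤
      ENNReal.ofReal 2 := by
    calc _ ≤ ∑' n : ℕ, ENNReal.ofReal ((1 / 2) ^ n) := ENNReal.tsum_le_tsum total_le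
      _ = ENNReal.ofReal (∑' n : ℕ, (1 / 2 : ℝ) ^ n) :=
          (ENNReal.ofReal_tsum_of_nonneg (fun n => by positivity) summable_geometric_two).symm
      _ = ENNReal.ofReal 2 := by rw [tsum_geometric_two]
  refine ⟨L, 2, by norm_num, fun n => ?_⟩
  have h1 := (hL n).trans hfin
  set N := Nat.card {p : JJ n // p ∈ II n ∧ ∀ m ∈ Mf n, EE n p m L} with hN
  have h2 : (N : ℝ≥0∞) = ENNReal.ofReal (N : ℝ) := (ENNReal.ofReal_natCast _).symm
  unfold ww at h1
  rw [h2, ← ENNReal.ofReal_mul (by positivity), ENNReal.ofReal_le_ofReal_iff (by norm_num)] at h1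
  have hpow : (0 : ℝ) < 2 ^ (n.choose 2) := by positivity
  have h3 : (n : ℝ) / 2 ^ (n.choose 2) * N = n * N / 2 ^ (n.choose 2) := by ring
  rw [h3, div_le_iff₀ hpow] at h1
  exact h1

/-- If two graphs have the same Harary polynomial then they have the same number of vertices. -/
lemma card_eq_of_poly (L : Levels) {V W : Type} [Fintype V] [DecidableEq V] [Fintype W]
    [DecidableEq W] (G : SimpleGraph V) (H : SimpleGraph W)
    (h : hararyPoly (propOf L) H = hararyPoly (propOf L) G) : Fintype.card W = Fintype.card V := by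
  have hG := hcount_card (propOf L) (propOf_one L) G
  have hH := hcount_card (propOf L) (propOf_one L) H
  have key := hcount_eq_of_poly_eq (propOf L) h
  refine le_antisymm ?_ ?_
  · by_contra hlt
    push Not at hlt
    have := hcount_eq_zero (propOf L) G _ hlt
    rw [← key, hH] at this
    exact one_ne_zero this
  · by_contra hlt
    push Not at hlt
    have := hcount_eq_zero (propOf L) H _ hlt
    rw [key, hG] at this
    exact one_ne_zero this

lemma exists_bad (L : Levels) {n : ℕ} (hbig : Big n) (G : SimpleGraph (Fin n)) (hG : Typ n G)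
    (hu : ¬ HararyUnique (propOf L) G) :
    ∃ p : JJ n, p.1 = G ∧ p ∈ II n ∧ ∀ m ∈ Mf n, EE n p m L := by
  classical
  unfold HararyUnique at hu
  push Not at hu
  obtain ⟨W, iF, iD, H, hpoly, hiso⟩ := hu
  have hc := card_eq_of_poly L G H hpoly
  rw [Fintype.card_fin] at hc
  have e : W ≃ Fin n := Fintype.equivFinOfCardEq hc
  set H' : SimpleGraph (Fin n) := H.comap e.symm with hH'
  have e' : H ≃g H' := ⟨e, fun {a b} => by simp [hH']⟩
  refine ⟨(G, H'), rfl, ?_, ?_⟩
  · unfold II
    rw [mem_filter]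
    refine ⟨mem_univ _, hbig, hG, ?_⟩
    rintro ⟨f⟩
    exact hiso.elim' (f.trans e'.symm)
  · intro m _ _ _
    show hcount (propOf L) G _ = hcount (propOf L) H' _
    rw [← hcount_iso (propOf L) e', hcount_eq_of_poly_eq (propOf L) hpoly]

lemma num_bad_le (L : Levels) (n : ℕ) :
    num (fun G : SimpleGraph (Fin n) => ∃ p : JJ n, p.1 = G ∧ p ∈ II n ∧ ∀ m ∈ Mf n, EE n p m L) ≤
      Nat.card {p : JJ n // p ∈ II n ∧ ∀ m ∈ Mf n, EE n p m L} := by
  classical
  have h1 : Nat.card {p : JJ n // p ∈ II n ∧ ∀ m ∈ Mf n, EE n p m L} =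
      ((univ : Finset (JJ n)).filter fun p => p ∈ II n ∧ ∀ m ∈ Mf n, EE n p m L).card :=
    Nat.subtype_card _ fun p => by simp
  rw [h1]
  unfold num
  refine le_trans (card_le_card (t := ((univ : Finset (JJ n)).filter
    fun p => p ∈ II n ∧ ∀ m ∈ Mf n, EE n p m L).image Prod.fst) fun G hG => ?_) card_image_le
  rw [@mem_filter _ _ (Classical.decPred _)] at hG
  obtain ⟨-, p, hpG, hp⟩ := hG
  rw [mem_image]
  exact ⟨p, mem_filter.2 ⟨mem_univ _, hp⟩, hpG⟩

lemma nonunique_bound (L : Levels) (Φ : ℝ) (hΦ : ∀ n : ℕ,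
    (n : ℝ) * (Nat.card {p : JJ n // p ∈ II n ∧ ∀ m ∈ Mf n, EE n p m L} : ℝ) ≤
      Φ * 2 ^ (n.choose 2)) {n : ℕ} (hbig : Big n) :
    (n : ℝ) * (num (fun G : SimpleGraph (Fin n) => ¬ HararyUnique (propOf L) G) : ℝ) ≤
      (2 + Φ) * 2 ^ (n.choose 2) := by
  have h1 : num (fun G : SimpleGraph (Fin n) => ¬ HararyUnique (propOf L) G) ≤
      num (fun G : SimpleGraph (Fin n) => ¬ Typ n G) +
        Nat.card {p : JJ n // p ∈ II n ∧ ∀ m ∈ Mf n, EE n p m L} := by
    refine le_trans (num_mono fun G hG => ?_) ((num_or_le _ _).trans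
      (Nat.add_le_add_left (num_bad_le L n) _))
    by_cases hT : Typ n G
    · exact Or.inr (exists_bad L hbig G hT hG)
    · exact Or.inl hT
  have h2 : (n : ℝ) * (num (fun G : SimpleGraph (Fin n) => ¬ Typ n G) : ℝ) ≤
      2 * 2 ^ (n.choose 2) := by exact_mod_cast atyp_bound hbig
  have h3 := hΦ n
  have h4 : (num (fun G : SimpleGraph (Fin n) => ¬ HararyUnique (propOf L) G) : ℝ) ≤
      (num (fun G : SimpleGraph (Fin n) => ¬ Typ n G) : ℝ) +
        (Nat.card {p : JJ n // p ∈ II n ∧ ∀ m ∈ Mf n, EE n p m L} : ℝ) := by exact_mod_cast h1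
  have h5 := mul_le_mul_of_nonneg_left h4 (Nat.cast_nonneg (α := ℝ) n)
  rw [mul_add] at h5
  linarith

lemma unique_add (P : GraphProperty) (n : ℕ) :
    (Nat.card {G : SimpleGraph (Fin n) // HararyUnique P G} : ℝ) +
      (num (fun G : SimpleGraph (Fin n) => ¬ HararyUnique P G) : ℝ) = 2 ^ (n.choose 2) := by
  classical
  have h1 : Nat.card {G : SimpleGraph (Fin n) // HararyUnique P G} =
      ((univ : Finset (SimpleGraph (Fin n))).filter fun G => HararyUnique P G).card :=
    Nat.subtype_card _ fun G => by simp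
  have h2 : num (fun G : SimpleGraph (Fin n) => ¬ HararyUnique P G) =
      ((univ : Finset (SimpleGraph (Fin n))).filter fun G => ¬ HararyUnique P G).card := by
    unfold num
    congr 1
    ext G
    simp
  rw [h1, h2]
  have h3 := card_filter_add_card_filter_not (s := (univ : Finset (SimpleGraph (Fin n))))
    (fun G => HararyUnique P G)
  rw [card_univ, card_graph] at h3
  exact_mod_cast h3

theorem exists_almostComplete : ∃ P : GraphProperty, AlmostComplete P := by
  obtain ⟨L, Φ, hΦ0, hΦ⟩ := exists_good_levels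
  refine ⟨propOf L, ?_⟩
  unfold AlmostComplete
  have hlow : Tendsto (fun n : ℕ => 1 - (2 + Φ) / (n : ℝ)) atTop (𝓝 1) := by
    have : Tendsto (fun n : ℕ => (2 + Φ) / (n : ℝ)) atTop (𝓝 0) :=
      tendsto_const_div_atTop_nhds_zero_nat (2 + Φ)
    simpa using this.const_sub 1
  refine tendsto_of_tendsto_of_tendsto_of_le_of_le' hlow tendsto_const_nhds ?_ ?_
  · filter_upwards [ev_big] with n hbig
    have h1 := nonunique_bound L Φ hΦ hbig
    have h2 := unique_add (propOf L) n
    have hn : (0 : ℝ) < n := by exact_mod_cast hbig.pos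
    have hpow : (0 : ℝ) < 2 ^ (n.choose 2) := by positivity
    rw [le_div_iff₀ hpow, sub_mul, one_mul]
    have h3 : (num (fun G : SimpleGraph (Fin n) => ¬ HararyUnique (propOf L) G) : ℝ) ≤
        (2 + Φ) / n * 2 ^ (n.choose 2) := by
      rw [div_mul_eq_mul_div, le_div_iff₀ hn]
      linarith
    linarith
  · filter_upwards with n
    have h2 := unique_add (propOf L) n
    have hpow : (0 : ℝ) < 2 ^ (n.choose 2) := by positivity
    rw [div_le_one hpow]
    have : (0 : ℝ) ≤ (num (fun G : SimpleGraph (Fin n) => ¬ HararyUnique (propOf L) G) : ℝ) :=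
      Nat.cast_nonneg _
    linarith

end Q122.Harary
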