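import Pool.Agent.Q122.Harary.Types

set_option autoImplicit false

/-!
# One level of the random graph property
-/

namespace Q122.Harary

open Finset

set_option linter.unusedSectionVars false

/-- The random choices made for the graphs on `m` vertices: every graph on `Fin m` gets a random
graph on `t` vertices and a random label, every graph on `Fin t` gets a random threshold. -/
abbrev Om (t m b : ℕ) : Type :=
  (SimpleGraph (Fin m) → SimpleGraph (Fin t) × Fin b) × (SimpleGraph (Fin t) → Fin b)

/-- The random level: `F` belongs to it when its random `t`-vertex graph is an induced subgraph of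
`F` and the label of `F` is below the threshold of that graph. -/
def lev {t m b : ℕ} (a : SimpleGraph (Fin m) → SimpleGraph (Fin t) × Fin b)
    (U : SimpleGraph (Fin t) → Fin b) (F : SimpleGraph (Fin m)) : Prop :=
  Nonempty ((a F).1 ↪g F) ∧ (a F).2 < U (a F).1

variable {V : Type} [Fintype V] [DecidableEq V]

open Classical in
/-- The number of `m`-subsets of the vertex set inducing a graph of the level `L`. -/
noncomputable def cntLev {m : ℕ} (G : SimpleGraph V) (L : SimpleGraph (Fin m) → Prop) : ℕ :=
  (((univ : Finset V).powersetCard m).filter fun S => L (typ G m S)).card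

section

variable {t m b : ℕ} (G H : SimpleGraph V) (T : SimpleGraph (Fin t))

/-- The difference of the counts. -/
noncomputable def dif (a : SimpleGraph (Fin m) → SimpleGraph (Fin t) × Fin b)
    (U : SimpleGraph (Fin t) → Fin b) : ℤ :=
  (cntLev G (lev a U) : ℤ) - cntLev H (lev a U)

lemma dif_lt (hTH : ¬ Nonempty (T ↪g H))
    (a : SimpleGraph (Fin m) → SimpleGraph (Fin t) × Fin b)
    (U U' : SimpleGraph (Fin t) → Fin b) (hUU' : ∀ T', T' ≠ T → U T' = U' T')
    (F : SimpleGraph (Fin m)) (hTF : Nonempty (T ↪g F))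
    (hF : ∃ S : Finset V, S.card = m ∧ typ G m S = F) (haF : (a F).1 = T)
    (h1 : U T ≤ (a F).2) (h2 : (a F).2 < U' T) : dif G H a U < dif G H a U' := by
  classical
  have hle : U T ≤ U' T := h1.trans h2.le
  have hH : cntLev H (lev a U) = cntLev H (lev a U') := by
    unfold cntLev
    congr 1
    refine filter_congr fun S hS => ?_
    have hSm := (mem_powersetCard.1 hS).2
    by_cases hT : (a (typ H m S)).1 = T
    · have hno : ¬ Nonempty ((a (typ H m S)).1 ↪g typ H m S) := by
        rintro ⟨ι⟩
        rw [hT] at ι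
        obtain ⟨e⟩ := typ_iso H m S hSm
        exact hTH ⟨(ι.trans e.toEmbedding).trans (SimpleGraph.Embedding.induce _)⟩
      unfold lev
      constructor
      · rintro ⟨h, -⟩
        exact absurd h hno
      · rintro ⟨h, -⟩
        exact absurd h hno
    · unfold lev
      rw [hUU' _ hT]
  have hG : cntLev G (lev a U) < cntLev G (lev a U') := by
    unfold cntLev
    refine card_lt_card ?_
    rw [ssubset_iff_of_subset]
    · obtain ⟨S, hSm, hSF⟩ := hF
      refine ⟨S, ?_, ?_⟩
      · rw [mem_filter, mem_powersetCard]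
        refine ⟨⟨subset_univ _, hSm⟩, ?_⟩
        unfold lev
        rw [hSF, haF]
        exact ⟨hTF, h2⟩
      · rw [mem_filter, not_and]
        rintro - ⟨-, h⟩
        rw [hSF, haF] at h
        exact absurd h (not_lt.2 h1)
    · intro S hS
      rw [mem_filter] at hS ⊢
      refine ⟨hS.1, hS.2.1, ?_⟩
      by_cases hT : (a (typ G m S)).1 = T
      · have := hS.2.2
        rw [hT] at this ⊢
        exact lt_of_lt_of_le this hle
      · rw [← hUU' _ hT]
        exact hS.2.2
  unfold dif
  rw [hH]
  have : (cntLev G (lev a U) : ℤ) < cntLev G (lev a U') := by exact_mod_cast hG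
  linarith

/-- `a` is good if every cell of labels is used by some graph of `𝓕` assigned to `T`. -/
def GoodA (𝓕 : Finset (SimpleGraph (Fin m))) (c l : ℕ)
    (a : SimpleGraph (Fin m) → SimpleGraph (Fin t) × Fin b) : Prop :=
  ∀ j < l, ∃ F ∈ 𝓕, (a F).1 = T ∧ ((a F).2 : ℕ) / c = j

open Classical in
lemma count_U (hTH : ¬ Nonempty (T ↪g H)) (𝓕 : Finset (SimpleGraph (Fin m)))
    (h𝓕 : ∀ F ∈ 𝓕, Nonempty (T ↪g F) ∧ ∃ S : Finset V, S.card = m ∧ typ G m S = F)
    (c l : ℕ) (hc : 0 < c) (hb : b = l * c)
    (a : SimpleGraph (Fin m) → SimpleGraph (Fin t) × Fin b) (ha : GoodA T 𝓕 c l a) (x : ℤ) :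
    ((univ : Finset (SimpleGraph (Fin t) → Fin b)).filter fun U => dif G H a U = x).card * b ≤
      Fintype.card (SimpleGraph (Fin t) → Fin b) * (2 * c) := by
  set E := Equiv.funSplitAt T (Fin b) with hE
  have hcard : Fintype.card (SimpleGraph (Fin t) → Fin b) =
      b * Fintype.card ({T' // T' ≠ T} → Fin b) := by
    rw [Fintype.card_congr E, Fintype.card_prod, Fintype.card_fin]
  -- cells
  have hcell : ∀ r : {T' // T' ≠ T} → Fin b,
      ((univ : Finset (Fin b)).filter fun u => dif G H a (E.symm (u, r)) = x).card ≤ 2 * c := by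
    intro r
    set X := (univ : Finset (Fin b)).filter fun u => dif G H a (E.symm (u, r)) = x with hX
    rcases X.eq_empty_or_nonempty with h0 | hne
    · rw [h0]
      simp
    obtain ⟨u₀, hu₀, hmin⟩ := exists_min_image X (fun u => u) hne
    set j := (u₀ : ℕ) / c with hj
    have hET : ∀ u, E.symm (u, r) T = u := by
      intro u
      simp [hE, Equiv.funSplitAt, Equiv.piSplitAt]
    have hEn : ∀ u u' T', T' ≠ T → E.symm (u, r) T' = E.symm (u', r) T' := by
      intro u u' T' hT'
      simp [hE, Equiv.funSplitAt, Equiv.piSplitAt, hT']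
    have hsub : ∀ u ∈ X, (u : ℕ) ∈ Finset.Ico (j * c) ((j + 2) * c) := by
      intro u hu
      rw [mem_Ico]
      have hle : (u₀ : ℕ) ≤ u := by exact_mod_cast hmin u hu
      constructor
      · exact (Nat.div_mul_le_self _ _).trans hle
      · by_contra hcon
        push Not at hcon
        have hjl : j + 1 < l := by
          have h3 : (u : ℕ) < l * c := by
            rw [← hb]
            exact u.2
          have h4 : (j + 2) * c < l * c := lt_of_le_of_lt hcon h3
          have := Nat.lt_of_mul_lt_mul_right h4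
          omega
        obtain ⟨F, hF, haF, hv⟩ := ha (j + 1) hjl
        have h5 : (j + 1) * c ≤ ((a F).2 : ℕ) := by
          rw [← hv]
          exact Nat.div_mul_le_self _ _
        have h6 : ((a F).2 : ℕ) < (j + 2) * c := by
          have := Nat.lt_mul_of_div_lt (show ((a F).2 : ℕ) / c < j + 2 by omega) hc
          exact this
        have h7 : (u₀ : ℕ) < (j + 1) * c :=
          Nat.lt_mul_of_div_lt (show (u₀ : ℕ) / c < j + 1 by omega) hc
        have hlt := dif_lt G H T hTH a (E.symm (u₀, r)) (E.symm (u, r))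
          (fun T' hT' => hEn u₀ u T' hT') F (h𝓕 F hF).1 (h𝓕 F hF).2 haF
          (by rw [hET, Fin.le_def]; omega) (by rw [hET, Fin.lt_def]; omega)
        rw [hX, mem_filter] at hu₀ hu
        rw [hu₀.2, hu.2] at hlt
        exact lt_irrefl _ hlt
    calc X.card = (X.image fun u : Fin b => (u : ℕ)).card :=
          (card_image_of_injective _ Fin.val_injective).symm
      _ ≤ (Finset.Ico (j * c) ((j + 2) * c)).card := by
          refine card_le_card ?_
          intro y hy
          rw [mem_image] at hy
          obtain ⟨u, hu, rfl⟩ := hy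
          exact hsub u hu
      _ = 2 * c := by
          rw [Nat.card_Ico]
          have : (j + 2) * c = j * c + 2 * c := by ring
          omega
  have hsum : ((univ : Finset (SimpleGraph (Fin t) → Fin b)).filter
      fun U => dif G H a U = x).card ≤ Fintype.card ({T' // T' ≠ T} → Fin b) * (2 * c) := by
    have e1 : ((univ : Finset (SimpleGraph (Fin t) → Fin b)).filter
      fun U => dif G H a U = x).card =
        ∑ r : {T' // T' ≠ T} → Fin b,
          ((univ : Finset (Fin b)).filter fun u => dif G H a (E.symm (u, r)) = x).card := by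
      simp only [card_filter]
      rw [← Equiv.sum_comp E.symm, Fintype.sum_prod_type, sum_comm]
    rw [e1, ← smul_eq_mul, ← card_univ]
    exact sum_le_card_nsmul _ _ _ fun r _ => hcell r
  calc _ ≤ Fintype.card ({T' // T' ≠ T} → Fin b) * (2 * c) * b := Nat.mul_le_mul_right _ hsum
    _ = _ := by rw [hcard]; ring

open Classical in
lemma cell_card (c l j : ℕ) (hc : 0 < c) (hj : j < l) :
    ((univ : Finset (SimpleGraph (Fin t) × Fin (l * c))).filter
      fun y : SimpleGraph (Fin t) × Fin (l * c) => y.1 = T ∧ (y.2 : ℕ) / c = j).card = c := by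
  have h1 : ((univ : Finset (SimpleGraph (Fin t) × Fin (l * c))).filter
      fun y : SimpleGraph (Fin t) × Fin (l * c) => y.1 = T ∧ (y.2 : ℕ) / c = j).image
        (fun y => (y.2 : ℕ)) =
      Finset.Ico (j * c) ((j + 1) * c) := by
    ext y
    simp only [mem_image, mem_filter, mem_univ, true_and, mem_Ico]
    constructor
    · rintro ⟨v, ⟨-, hv⟩, rfl⟩
      constructor
      · rw [← hv]
        exact Nat.div_mul_le_self _ _
      · exact Nat.lt_mul_of_div_lt (by omega) hc
    · rintro ⟨h3, h4⟩
      have h5 : y < l * c := lt_of_lt_of_le h4 (Nat.mul_le_mul_right _ hj)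
      exact ⟨(T, ⟨y, h5⟩), ⟨rfl, Nat.div_eq_of_lt_le h3 h4⟩, rfl⟩
  have h2 : (((univ : Finset (SimpleGraph (Fin t) × Fin (l * c))).filter
      fun y : SimpleGraph (Fin t) × Fin (l * c) => y.1 = T ∧ (y.2 : ℕ) / c = j).image
        (fun y => (y.2 : ℕ))).card =
      ((univ : Finset (SimpleGraph (Fin t) × Fin (l * c))).filter
      fun y : SimpleGraph (Fin t) × Fin (l * c) => y.1 = T ∧ (y.2 : ℕ) / c = j).card := by
    refine card_image_of_injOn ?_
    rintro ⟨y1, y2⟩ hy ⟨y1', y2'⟩ hy' h
    simp only [coe_filter, mem_univ, true_and, Set.mem_ofPred_eq] at hy hy'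
    simp only at h
    rw [hy.1, hy'.1, Fin.ext h]
  rw [← h2, h1, Nat.card_Ico]
  have : (j + 1) * c = j * c + c := by ring
  omega

lemma avoid_count {ι α : Type} [Fintype ι] [DecidableEq ι] [Fintype α] [DecidableEq α]
    (hα : 0 < Fintype.card α) (E : Finset α) (𝓕 : Finset ι) :
    ((((univ : Finset (ι → α)).filter fun a => ∀ F ∈ 𝓕, a F ∉ E).card : ℕ) : ℝ) =
      (1 - (E.card : ℝ) / Fintype.card α) ^ 𝓕.card * Fintype.card (ι → α) := by
  have h1 : (univ : Finset (ι → α)).filter (fun a => ∀ F ∈ 𝓕, a F ∉ E) =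
      Fintype.piFinset fun F => if F ∈ 𝓕 then Eᶜ else univ := by
    ext a
    simp only [mem_filter, mem_univ, true_and, Fintype.mem_piFinset]
    refine forall_congr' fun F => ?_
    by_cases hF : F ∈ 𝓕
    · simp [hF]
    · simp [hF]
  rw [h1, Fintype.card_piFinset]
  have h2 : ∀ F : ι, (if F ∈ 𝓕 then Eᶜ else univ : Finset α).card =
      if F ∈ 𝓕 then (Fintype.card α - E.card) else Fintype.card α := by
    intro F
    split_ifs
    · rw [card_compl]
    · rw [card_univ]
  rw [prod_congr rfl fun F _ => h2 F, prod_ite, prod_const, prod_const]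
  have h3 : (univ.filter fun F => F ∈ 𝓕).card = 𝓕.card := by
    congr 1
    ext F
    simp
  have h4 : (univ.filter fun F => F ∉ 𝓕).card = Fintype.card ι - 𝓕.card := by
    rw [← card_compl]
    congr 1
    ext F
    simp
  have h5 : 𝓕.card ≤ Fintype.card ι := card_le_univ _
  have h6 : E.card ≤ Fintype.card α := card_le_univ _
  rw [h3, h4, Fintype.card_fun]
  push_cast [Nat.cast_sub h6]
  have h7 : (Fintype.card α : ℝ) ≠ 0 := by exact_mod_cast hα.ne'
  have h9 : (1 - (E.card : ℝ) / Fintype.card α) =
      ((Fintype.card α : ℝ) - E.card) / Fintype.card α := by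
    field_simp
  rw [h9, div_pow, div_mul_eq_mul_div, eq_div_iff (pow_ne_zero _ h7), mul_assoc, ← pow_add,
    Nat.sub_add_cancel h5]

open Classical in
lemma count_bad (𝓕 : Finset (SimpleGraph (Fin m))) (c l : ℕ) (hc : 0 < c) (hl : 0 < l) :
    ((((univ : Finset (SimpleGraph (Fin m) → SimpleGraph (Fin t) × Fin (l * c))).filter
      fun a => ¬ GoodA T 𝓕 c l a).card : ℕ) : ℝ) ≤
      l * ((1 - 1 / ((Fintype.card (SimpleGraph (Fin t)) : ℝ) * l)) ^ 𝓕.card *
        Fintype.card (SimpleGraph (Fin m) → SimpleGraph (Fin t) × Fin (l * c))) := by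
  have hαcard : Fintype.card (SimpleGraph (Fin t) × Fin (l * c)) =
      Fintype.card (SimpleGraph (Fin t)) * (l * c) := by
    rw [Fintype.card_prod, Fintype.card_fin]
  have hαpos : 0 < Fintype.card (SimpleGraph (Fin t) × Fin (l * c)) := by
    rw [hαcard]
    exact Nat.mul_pos Fintype.card_pos (Nat.mul_pos hl hc)
  have hratio : (c : ℝ) / Fintype.card (SimpleGraph (Fin t) × Fin (l * c)) =
      1 / ((Fintype.card (SimpleGraph (Fin t)) : ℝ) * l) := by
    have hg : (Fintype.card (SimpleGraph (Fin t)) : ℝ) ≠ 0 := by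
      exact_mod_cast Fintype.card_ne_zero
    have hlR : (l : ℝ) ≠ 0 := by exact_mod_cast hl.ne'
    have hcR : (c : ℝ) ≠ 0 := by exact_mod_cast hc.ne'
    rw [hαcard]
    push_cast
    field_simp
  have hone : ∀ j < l,
      ((((univ : Finset (SimpleGraph (Fin m) → SimpleGraph (Fin t) × Fin (l * c))).filter
        fun a => ∀ F ∈ 𝓕, a F ∉ (univ.filter fun y => y.1 = T ∧ (y.2 : ℕ) / c = j)).card : ℕ) : ℝ) =
      (1 - 1 / ((Fintype.card (SimpleGraph (Fin t)) : ℝ) * l)) ^ 𝓕.card *
        Fintype.card (SimpleGraph (Fin m) → SimpleGraph (Fin t) × Fin (l * c)) := by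
    intro j hj
    have := avoid_count (ι := SimpleGraph (Fin m)) hαpos
      (univ.filter fun y : SimpleGraph (Fin t) × Fin (l * c) => y.1 = T ∧ (y.2 : ℕ) / c = j) 𝓕
    rw [cell_card T c l j hc hj, hratio] at this
    exact this
  have hsub : ((univ : Finset (SimpleGraph (Fin m) → SimpleGraph (Fin t) × Fin (l * c))).filter
      fun a => ¬ GoodA T 𝓕 c l a) ⊆
      (range l).biUnion fun j =>
        (univ : Finset (SimpleGraph (Fin m) → SimpleGraph (Fin t) × Fin (l * c))).filter
          fun a => ∀ F ∈ 𝓕, a F ∉ (univ.filter fun y => y.1 = T ∧ (y.2 : ℕ) / c = j) := by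
    intro a ha
    rw [mem_filter] at ha
    unfold GoodA at ha
    push Not at ha
    obtain ⟨-, j, hj, h⟩ := ha
    rw [mem_biUnion]
    refine ⟨j, mem_range.2 hj, ?_⟩
    rw [mem_filter]
    refine ⟨mem_univ _, fun F hF hmem => ?_⟩
    simp only [mem_filter, mem_univ, true_and] at hmem
    exact h F hF hmem.1 hmem.2
  refine le_trans (Nat.cast_le.2 ((card_le_card hsub).trans card_biUnion_le)) ?_
  push_cast
  rw [sum_congr rfl fun j hj => hone j (mem_range.1 hj), sum_const, card_range, nsmul_eq_mul]

open Classical in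
/-- The level inequality. -/
theorem level_ineq (hTH : ¬ Nonempty (T ↪g H)) (𝓕 : Finset (SimpleGraph (Fin m)))
    (h𝓕 : ∀ F ∈ 𝓕, Nonempty (T ↪g F) ∧ ∃ S : Finset V, S.card = m ∧ typ G m S = F)
    (c l : ℕ) (hc : 0 < c) (hl : 0 < l) (hb : b = l * c) (x : ℤ) :
    ((((univ : Finset (Om t m b)).filter fun ω => dif G H ω.1 ω.2 = x).card : ℕ) : ℝ) ≤
      (2 / l + l * (1 - 1 / ((Fintype.card (SimpleGraph (Fin t)) : ℝ) * l)) ^ 𝓕.card) *
        Fintype.card (Om t m b) := by
  subst hb
  let A := SimpleGraph (Fin m) → SimpleGraph (Fin t) × Fin (l * c)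
  let Z := SimpleGraph (Fin t) → Fin (l * c)
  have hbpos : 0 < l * c := Nat.mul_pos hl hc
  have h1 : ((univ : Finset (Om t m (l * c))).filter fun ω => dif G H ω.1 ω.2 = x).card =
      ∑ a : A, ((univ : Finset Z).filter fun U => dif G H a U = x).card := by
    simp only [card_filter]
    rw [Fintype.sum_prod_type]
  have h2 : ∀ a : A, ((((univ : Finset Z).filter fun U => dif G H a U = x).card : ℕ) : ℝ) ≤
      2 / l * Fintype.card Z + (if GoodA T 𝓕 c l a then 0 else (Fintype.card Z : ℝ)) := by
    intro a
    have hnn : (0 : ℝ) ≤ 2 / l * Fintype.card Z := by positivity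
    split_ifs with hg
    · have h3 := count_U G H T hTH 𝓕 h𝓕 c l hc rfl a hg x
      have hlR : (0 : ℝ) < l := by exact_mod_cast hl
      have hcR : (0 : ℝ) < c := by exact_mod_cast hc
      have h4 : ((((univ : Finset Z).filter fun U => dif G H a U = x).card : ℕ) : ℝ) * (l * c) ≤
          Fintype.card Z * (2 * c) := by exact_mod_cast h3
      rw [add_zero]
      rw [← le_div_iff₀ (by positivity)] at h4
      refine h4.trans (le_of_eq ?_)
      field_simp
    · have h5 : ((univ : Finset Z).filter fun U => dif G H a U = x).card ≤ Fintype.card Z :=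
        card_le_univ _
      have h6 : ((((univ : Finset Z).filter fun U => dif G H a U = x).card : ℕ) : ℝ) ≤
        Fintype.card Z := by exact_mod_cast h5
      linarith
  have h3 : ∑ a : A, (if GoodA T 𝓕 c l a then 0 else (Fintype.card Z : ℝ)) =
      ((univ : Finset A).filter fun a => ¬ GoodA T 𝓕 c l a).card * Fintype.card Z := by
    rw [sum_ite, sum_const_zero, zero_add, sum_const, nsmul_eq_mul]
  have h4 := count_bad T 𝓕 c l hc hl
  have hcardOm : (Fintype.card (Om t m (l * c)) : ℝ) = Fintype.card A * Fintype.card Z := by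
    have : Fintype.card (Om t m (l * c)) = Fintype.card A * Fintype.card Z := Fintype.card_prod _ _
    rw [this]
    push_cast
    ring
  rw [h1]
  push_cast
  calc ∑ a : A, ((((univ : Finset Z).filter fun U => dif G H a U = x).card : ℕ) : ℝ)
      ≤ ∑ a : A, (2 / l * Fintype.card Z + (if GoodA T 𝓕 c l a then 0 else (Fintype.card Z : ℝ))) :=
        sum_le_sum fun a _ => h2 a
    _ = Fintype.card A * (2 / l * Fintype.card Z) +
          ((univ : Finset A).filter fun a => ¬ GoodA T 𝓕 c l a).card * Fintype.card Z := by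
        rw [sum_add_distrib, h3, sum_const, card_univ, nsmul_eq_mul]
    _ ≤ Fintype.card A * (2 / l * Fintype.card Z) +
          (l * ((1 - 1 / ((Fintype.card (SimpleGraph (Fin t)) : ℝ) * l)) ^ 𝓕.card *
            Fintype.card A)) * Fintype.card Z := by
        have hZ0 : (0 : ℝ) ≤ Fintype.card Z := by positivity
        have := mul_le_mul_of_nonneg_right h4 hZ0
        linarith
    _ = _ := by
        rw [hcardOm]
        ring

end

end Q122.Harary
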