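import Pool.Agent.Q122.Harary.Level
import Pool.Agent.Q122.Harary.Card

set_option autoImplicit false

/-!
# The probability that two non-isomorphic graphs agree on one level
-/

namespace Q122.Harary

open Finset

/-- The bound for the probability. -/
noncomputable def qq (t k n m : ℕ) : ℝ :=
  6 * (((n + 1) ^ (2 * k) * (2 ^ (t ^ 2) * n ^ 3) * n ^ t : ℕ) : ℝ) / (n.choose m : ℝ)

lemma qq_nonneg (t k n m : ℕ) : 0 ≤ qq t k n m := by
  unfold qq
  positivity

open Classical in
theorem level_bound {n m t k B : ℕ} (hn : 2 ≤ n) (htm : t ≤ m) (hmn : m ≤ n) (hB : n ≤ B)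
    (G H : SimpleGraph (Fin n)) (hG : NoDisj G k) (T : SimpleGraph (Fin t))
    (hTG : Nonempty (T ↪g G)) (hTH : ¬ Nonempty (T ↪g H)) (x : ℤ) :
    ((((univ : Finset (Om t m (2 ^ B))).filter fun ω => dif G H ω.1 ω.2 = x).card : ℕ) : ℝ) ≤
      qq t k n m * Fintype.card (Om t m (2 ^ B)) := by
  set g := Fintype.card (SimpleGraph (Fin t)) with hg
  have hgpos : 0 < g := Fintype.card_pos
  have hgle : g ≤ 2 ^ (t ^ 2) := card_graph_le t
  set D := (n + 1) ^ (2 * k) * (g * n ^ 3) with hD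
  have hDpos : 0 < D := by positivity
  set C := (n - t).choose (m - t) with hC
  have hCpos : 0 < C := Nat.choose_pos (by omega)
  have hNpos : 0 < n.choose m := Nat.choose_pos hmn
  have hNC : n.choose m ≤ n ^ t * C := by
    have h1 : n.choose m * m.choose t = n.choose t * C := by
      rw [hC]
      exact Nat.choose_mul htm
    have h2 : 1 ≤ m.choose t := Nat.choose_pos htm
    calc n.choose m = n.choose m * 1 := (mul_one _).symm
      _ ≤ n.choose m * m.choose t := Nat.mul_le_mul_left _ h2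
      _ = n.choose t * C := h1
      _ ≤ n ^ t * C := Nat.mul_le_mul_right _ (Nat.choose_le_pow n t)
  have hqq : 6 * (D : ℝ) / C ≤ qq t k n m := by
    unfold qq
    have hC' : (0 : ℝ) < C := by exact_mod_cast hCpos
    have hN' : (0 : ℝ) < n.choose m := by exact_mod_cast hNpos
    rw [div_le_div_iff₀ hC' hN']
    have h3 : D * n.choose m ≤ ((n + 1) ^ (2 * k) * (2 ^ (t ^ 2) * n ^ 3) * n ^ t) * C := by
      calc D * n.choose m ≤ ((n + 1) ^ (2 * k) * (2 ^ (t ^ 2) * n ^ 3)) * (n ^ t * C) := by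
            refine Nat.mul_le_mul ?_ hNC
            rw [hD]
            exact Nat.mul_le_mul_left _ (Nat.mul_le_mul_right _ hgle)
        _ = _ := by ring
    have h4 : (D : ℝ) * n.choose m ≤
        (((n + 1) ^ (2 * k) * (2 ^ (t ^ 2) * n ^ 3) * n ^ t : ℕ) : ℝ) * C := by exact_mod_cast h3
    nlinarith
  have hcard0 : (0 : ℝ) ≤ Fintype.card (Om t m (2 ^ B)) := Nat.cast_nonneg _
  refine le_trans ?_ (mul_le_mul_of_nonneg_right hqq hcard0)
  have hC' : (0 : ℝ) < C := by exact_mod_cast hCpos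
  have hD' : (0 : ℝ) < D := by exact_mod_cast hDpos
  rcases Nat.eq_zero_or_pos (C / D) with hy | hy
  · -- trivial case
    have hCD : C < D := by
      rcases Nat.div_eq_zero_iff.1 hy with h | h
      · omega
      · exact h
    have h1 : (1 : ℝ) ≤ 6 * (D : ℝ) / C := by
      rw [le_div_iff₀ hC']
      have : (C : ℝ) < D := by exact_mod_cast hCD
      linarith
    have h2 : ((((univ : Finset (Om t m (2 ^ B))).filter
        fun ω => dif G H ω.1 ω.2 = x).card : ℕ) : ℝ) ≤ Fintype.card (Om t m (2 ^ B)) := by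
      exact_mod_cast card_le_univ _
    nlinarith
  · set y := C / D with hydef
    set r := Nat.log 2 y with hr
    have hly : 2 ^ r ≤ y := Nat.pow_log_le_self 2 (by omega)
    have hyl : y < 2 ^ (r + 1) := Nat.lt_pow_succ_log_self (by norm_num) y
    have hyC : y ≤ C := Nat.div_le_self _ _
    have hC2 : C ≤ 2 ^ n := by
      calc C ≤ 2 ^ (n - t) := Nat.choose_le_two_pow _ _
        _ ≤ 2 ^ n := Nat.pow_le_pow_right (by norm_num) (by omega)
    have hl2n : 2 ^ r ≤ 2 ^ n := hly.trans (hyC.trans hC2)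
    have hrn : r ≤ n := (Nat.pow_le_pow_iff_right (by norm_num)).1 hl2n
    obtain ⟨𝓕, h𝓕, h𝓕c⟩ := many_types hG m T hTG htm
    rw [Fintype.card_fin] at h𝓕c
    have hbl : 2 ^ B = 2 ^ r * 2 ^ (B - r) := by
      rw [← pow_add]
      congr 1
      omega
    have hmain := level_ineq G H T hTH 𝓕 h𝓕 (2 ^ (B - r)) (2 ^ r) (by positivity) (by positivity)
      hbl x
    refine hmain.trans (mul_le_mul_of_nonneg_right ?_ hcard0)
    set l := 2 ^ r with hl
    have hlpos : 0 < l := by positivity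
    have hlR : (0 : ℝ) < (l : ℝ) := by exact_mod_cast hlpos
    have hgR : (0 : ℝ) < (g : ℝ) := by exact_mod_cast hgpos
    -- many types
    have hK : l * g * n ^ 3 ≤ 𝓕.card := by
      have h1 : y * D ≤ C := Nat.div_mul_le_self C D
      have h2 : (n + 1) ^ (2 * k) * (l * g * n ^ 3) ≤ (n + 1) ^ (2 * k) * 𝓕.card := by
        calc (n + 1) ^ (2 * k) * (l * g * n ^ 3) = l * D := by rw [hD]; ring
          _ ≤ y * D := Nat.mul_le_mul_right _ hly
          _ ≤ C := h1
          _ ≤ _ := h𝓕c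
      exact Nat.le_of_mul_le_mul_left h2 (by positivity)
    have hCl : C ≤ 2 * l * D := by
      have h1 : C < D * (C / D + 1) := Nat.lt_mul_div_succ C hDpos
      have h2 : y + 1 ≤ 2 * l := by
        have : 2 ^ (r + 1) = 2 * l := by rw [hl, pow_succ]; ring
        omega
      calc C ≤ D * (y + 1) := h1.le
        _ ≤ D * (2 * l) := Nat.mul_le_mul_left _ h2
        _ = 2 * l * D := by ring
    have hz0 : 0 < 1 / ((g : ℝ) * l) := by positivity
    have hz1 : 1 / ((g : ℝ) * l) ≤ 1 := by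
      rw [div_le_one (by positivity)]
      have : 1 ≤ g * l := Nat.mul_pos hgpos hlpos
      exact_mod_cast this
    have hexp : (1 - 1 / ((g : ℝ) * l)) ^ 𝓕.card ≤ Real.exp (-(n : ℝ) ^ 3) := by
      have h1 : 1 - 1 / ((g : ℝ) * l) ≤ Real.exp (-(1 / ((g : ℝ) * l))) :=
        Real.one_sub_le_exp_neg _
      calc (1 - 1 / ((g : ℝ) * l)) ^ 𝓕.card ≤ Real.exp (-(1 / ((g : ℝ) * l))) ^ 𝓕.card :=
            pow_le_pow_left₀ (by linarith) h1 _
        _ = Real.exp (𝓕.card * -(1 / ((g : ℝ) * l))) := (Real.exp_nat_mul _ _).symm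
        _ ≤ _ := by
            rw [Real.exp_le_exp]
            have h2 : (l : ℝ) * g * n ^ 3 ≤ 𝓕.card := by exact_mod_cast hK
            have h3 : (n : ℝ) ^ 3 ≤ 𝓕.card * (1 / ((g : ℝ) * l)) := by
              rw [mul_one_div, le_div_iff₀ (by positivity)]
              nlinarith
            linarith
    have hlexp : (l : ℝ) * l * Real.exp (-(n : ℝ) ^ 3) ≤ 1 := by
      have h1 : (l : ℝ) ≤ Real.exp n := by
        have h2 : (l : ℝ) ≤ 2 ^ n := by exact_mod_cast hl2n
        have h3 : (2 : ℝ) ≤ Real.exp 1 := by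
          have := Real.add_one_le_exp (1 : ℝ)
          linarith
        calc (l : ℝ) ≤ 2 ^ n := h2
          _ ≤ Real.exp 1 ^ n := pow_le_pow_left₀ (by norm_num) h3 n
          _ = Real.exp n := by rw [← Real.exp_nat_mul]; simp
      have h4 : (l : ℝ) * l ≤ Real.exp n * Real.exp n :=
        mul_le_mul h1 h1 hlR.le (Real.exp_pos _).le
      calc (l : ℝ) * l * Real.exp (-(n : ℝ) ^ 3)
          ≤ Real.exp n * Real.exp n * Real.exp (-(n : ℝ) ^ 3) :=
            mul_le_mul_of_nonneg_right h4 (Real.exp_pos _).le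
        _ = Real.exp (n + n + -(n : ℝ) ^ 3) := by rw [← Real.exp_add, ← Real.exp_add]
        _ ≤ Real.exp 0 := by
            rw [Real.exp_le_exp]
            have hnR : (2 : ℝ) ≤ n := by exact_mod_cast hn
            have : (n : ℝ) ^ 3 = n * (n * n) := by ring
            nlinarith [mul_nonneg (by linarith : (0 : ℝ) ≤ n) (by nlinarith : (0:ℝ) ≤ (n : ℝ) * n - 4)]
        _ = 1 := Real.exp_zero
    have h5 : (l : ℝ) * (1 - 1 / ((g : ℝ) * l)) ^ 𝓕.card ≤ 1 / l := by
      rw [le_div_iff₀ hlR]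
      calc (l : ℝ) * (1 - 1 / ((g : ℝ) * l)) ^ 𝓕.card * l
          ≤ (l : ℝ) * Real.exp (-(n : ℝ) ^ 3) * l := by
            refine mul_le_mul_of_nonneg_right ?_ hlR.le
            exact mul_le_mul_of_nonneg_left hexp hlR.le
        _ = (l : ℝ) * l * Real.exp (-(n : ℝ) ^ 3) := by ring
        _ ≤ 1 := hlexp
    have h6 : (3 : ℝ) / l ≤ 6 * (D : ℝ) / C := by
      rw [div_le_div_iff₀ hlR hC']
      have : (C : ℝ) ≤ 2 * l * D := by exact_mod_cast hCl
      nlinarith
    calc (2 : ℝ) / (l : ℝ) + l * (1 - 1 / ((g : ℝ) * l)) ^ 𝓕.card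
        ≤ 2 / l + 1 / l := by linarith
      _ = 3 / l := by ring
      _ ≤ _ := h6

end Q122.Harary
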