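import Pool.Agent.Q122.Harary.LevelBound

set_option autoImplicit false

/-!
# Numerical estimates
-/

namespace Q122.Harary

open Finset Filter Topology

/-- The size of the separating sets used on level `m`. -/
def qf (m : ℕ) : ℕ := Nat.sqrt (Nat.sqrt m)

/-- The binary length. -/
def lf (n : ℕ) : ℕ := Nat.log 2 n + 1

/-- The size of the forbidden repeated subgraphs. -/
def kf (n : ℕ) : ℕ := 8 * lf n

/-- The levels used for the graphs on `n` vertices. -/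
def Mf (n : ℕ) : Finset ℕ := (range n).filter fun m => n < 20 * m

lemma mem_Mf {n m : ℕ} : m ∈ Mf n ↔ m < n ∧ n < 20 * m := by
  unfold Mf
  rw [mem_filter, mem_range]

lemma lt_two_pow_lf (n : ℕ) : n < 2 ^ lf n := Nat.lt_pow_succ_log_self (by norm_num) n

lemma lf_pos (n : ℕ) : 0 < lf n := Nat.succ_pos _

lemma qf_pow (m : ℕ) : qf m ^ 4 ≤ m := by
  unfold qf
  have h1 : Nat.sqrt (Nat.sqrt m) ^ 2 ≤ Nat.sqrt m := Nat.sqrt_le' _
  have h2 : Nat.sqrt m ^ 2 ≤ m := Nat.sqrt_le' _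
  calc Nat.sqrt (Nat.sqrt m) ^ 4 = (Nat.sqrt (Nat.sqrt m) ^ 2) ^ 2 := by ring
    _ ≤ Nat.sqrt m ^ 2 := Nat.pow_le_pow_left h1 2
    _ ≤ m := h2

lemma le_qf {a m : ℕ} (h : a ^ 4 ≤ m) : a ≤ qf m := by
  unfold qf
  rw [Nat.le_sqrt, Nat.le_sqrt]
  calc a * a * (a * a) = a ^ 4 := by ring
    _ ≤ m := h

lemma ev_lf (C d : ℕ) : ∀ᶠ n : ℕ in atTop, C * lf n ^ d ≤ n := by
  have h1 : Tendsto (fun s : ℕ => (s : ℝ) ^ d / (2 : ℝ) ^ s) atTop (𝓝 0) :=
    tendsto_pow_const_div_const_pow_of_one_lt d (by norm_num)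
  have h2 : Tendsto (fun s : ℕ => ((s + 1 : ℕ) : ℝ) ^ d / (2 : ℝ) ^ (s + 1)) atTop (𝓝 0) :=
    h1.comp (tendsto_add_atTop_nat 1)
  have h3 : ∀ᶠ s : ℕ in atTop, ((s + 1 : ℕ) : ℝ) ^ d / (2 : ℝ) ^ (s + 1) < 1 / (2 * (C + 1)) :=
    h2.eventually_lt_const (by positivity)
  obtain ⟨s₀, hs₀⟩ := eventually_atTop.1 h3
  refine eventually_atTop.2 ⟨2 ^ s₀, fun n hn => ?_⟩
  have hn0 : n ≠ 0 := by
    have : 0 < 2 ^ s₀ := by positivity
    omega
  have hs : s₀ ≤ Nat.log 2 n := Nat.le_log_of_pow_le (by norm_num) hn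
  have h4 := hs₀ _ hs
  have h5 : 2 ^ Nat.log 2 n ≤ n := Nat.pow_log_le_self 2 hn0
  rw [div_lt_div_iff₀ (by positivity) (by positivity)] at h4
  have h6 : (C : ℝ) * ((Nat.log 2 n + 1 : ℕ) : ℝ) ^ d ≤ n := by
    have h7 : (2 : ℝ) ^ Nat.log 2 n ≤ n := by exact_mod_cast h5
    have h8 : (0 : ℝ) ≤ ((Nat.log 2 n + 1 : ℕ) : ℝ) ^ d := by positivity
    have h9 : (2 : ℝ) ^ (Nat.log 2 n + 1) = 2 * 2 ^ Nat.log 2 n := by ring
    rw [h9] at h4
    nlinarith
  unfold lf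
  exact_mod_cast h6

/-- The largeness condition. -/
def Big (n : ℕ) : Prop := 200 ≤ n ∧ ∀ m ∈ Mf n, 32 * lf n ^ 2 ≤ qf m

lemma ev_big : ∀ᶠ n : ℕ in atTop, Big n := by
  filter_upwards [ev_lf (20 * 32 ^ 4) 8, eventually_ge_atTop 200] with n hn hn2
  refine ⟨hn2, fun m hm => le_qf ?_⟩
  rw [mem_Mf] at hm
  have h1 : 20 * (32 * lf n ^ 2) ^ 4 ≤ n := by
    calc 20 * (32 * lf n ^ 2) ^ 4 = 20 * 32 ^ 4 * lf n ^ 8 := by ring
      _ ≤ n := hn
  omega

lemma Big.pos {n : ℕ} (h : Big n) : 0 < n := by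
  have := h.1
  omega

lemma Big.q32 {n m : ℕ} (h : Big n) (hm : m ∈ Mf n) : 32 ≤ qf m := by
  have h1 := h.2 m hm
  have h2 : 1 ≤ lf n ^ 2 := Nat.one_le_pow _ _ (lf_pos n)
  omega

/-- The numerator of the bound is small. -/
lemma num_small {n m : ℕ} (h : Big n) (hm : m ∈ Mf n) :
    ∃ e : ℕ, 100 * e ≤ n ∧
      6 * ((n + 1) ^ (2 * kf n) * (2 ^ ((qf m + 2) ^ 2) * n ^ 3) * n ^ (qf m + 2)) ≤ 2 ^ e := by
  set x := qf m with hx
  set l := lf n with hl
  have hx32 : 32 ≤ x := h.q32 hm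
  have hlx : 32 * l ^ 2 ≤ x := h.2 m hm
  have hl1 : 1 ≤ l := lf_pos n
  have hx4 : x ^ 4 ≤ n := (qf_pow m).trans (mem_Mf.1 hm).1.le
  have hn1 : n + 1 ≤ 2 ^ l := lt_two_pow_lf n
  have hn0 : n ≤ 2 ^ l := by omega
  refine ⟨3 + (l * (2 * (8 * l)) + ((x + 2) ^ 2 + l * 3) + l * (x + 2)), ?_, ?_⟩
  · have hlx' : l ≤ x := by nlinarith
    have h1 : 3 + (l * (2 * (8 * l)) + ((x + 2) ^ 2 + l * 3) + l * (x + 2)) ≤ 3 * x ^ 2 := by
      nlinarith
    have h2 : 300 * x ^ 2 ≤ x ^ 4 := by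
      have : 300 ≤ x ^ 2 := by nlinarith
      calc 300 * x ^ 2 ≤ x ^ 2 * x ^ 2 := Nat.mul_le_mul_right _ this
        _ = x ^ 4 := by ring
    omega
  · rw [pow_add 2 3, pow_add 2 _ (l * (x + 2)), pow_add 2 (l * (2 * (8 * l))),
      pow_add 2 ((x + 2) ^ 2)]
    refine Nat.mul_le_mul (by norm_num) (Nat.mul_le_mul (Nat.mul_le_mul ?_
      (Nat.mul_le_mul_left _ ?_)) ?_)
    · rw [pow_mul 2 l (2 * (8 * l))]
      exact Nat.pow_le_pow_left hn1 _
    · rw [pow_mul 2 l 3]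
      exact Nat.pow_le_pow_left hn0 _
    · rw [pow_mul 2 l (x + 2)]
      exact Nat.pow_le_pow_left hn0 _

lemma tf_le {n m : ℕ} (h : Big n) (hm : m ∈ Mf n) : qf m + 2 ≤ m := by
  have h1 := h.q32 hm
  have h2 := qf_pow m
  have h3 : qf m + 2 ≤ qf m ^ 4 := by
    have : qf m ^ 4 = qf m * qf m ^ 3 := by ring
    have h4 : 2 ≤ qf m ^ 3 := by
      calc 2 ≤ 32 ^ 3 := by norm_num
        _ ≤ qf m ^ 3 := Nat.pow_le_pow_left h1 3
    nlinarith
  omega

/-! ### The product of the binomial coefficients -/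

lemma second_bernoulli (x : ℝ) (hx : 0 ≤ x) (N : ℕ) :
    1 + N * x + N * (N - 1) / 2 * x ^ 2 ≤ (1 + x) ^ N := by
  induction N with
  | zero => simp
  | succ N ih =>
    rw [pow_succ]
    have h1 : (1 + N * x + N * (N - 1) / 2 * x ^ 2) * (1 + x) ≤ (1 + x) ^ N * (1 + x) :=
      mul_le_mul_of_nonneg_right ih (by linarith)
    refine le_trans ?_ h1
    push_cast
    rcases N with _ | N
    · simp
    · have h2 : (0 : ℝ) ≤ ((N + 1 : ℕ) : ℝ) * (((N + 1 : ℕ) : ℝ) - 1) / 2 * x ^ 3 := by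
        have : (((N + 1 : ℕ) : ℝ) - 1) = N := by push_cast; ring
        rw [this]
        positivity
      nlinarith

lemma nine_fourths (N : ℕ) (hN : 2 ≤ N) : (9 / 4 : ℝ) * (N : ℝ) ^ N ≤ ((N : ℝ) + 1) ^ N := by
  have hNR : (2 : ℝ) ≤ N := by exact_mod_cast hN
  have hN0 : (0 : ℝ) < N := by linarith
  have h1 := second_bernoulli (1 / N) (by positivity) N
  have h2 : (9 / 4 : ℝ) ≤ 1 + N * (1 / N : ℝ) + N * (N - 1) / 2 * (1 / N : ℝ) ^ 2 := by
    have h3 : (N : ℝ) * (1 / N) = 1 := by field_simp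
    have h4 : (N : ℝ) * (N - 1) / 2 * (1 / N : ℝ) ^ 2 = (1 - 1 / N) / 2 := by field_simp
    rw [h3, h4]
    have h5 : (1 : ℝ) / N ≤ 1 / 2 := one_div_le_one_div_of_le (by norm_num) hNR
    linarith
  have h3 : ((N : ℝ) + 1) ^ N = (1 + 1 / N) ^ N * (N : ℝ) ^ N := by
    rw [← mul_pow]
    congr 1
    field_simp
  rw [h3]
  exact mul_le_mul_of_nonneg_right (h2.trans h1) (by positivity)

lemma cn_bound (n : ℕ) : (8 / 9 : ℝ) * (9 / 4) ^ n * (n.factorial : ℝ) ≤ ((n : ℝ) + 1) ^ n := by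
  induction n with
  | zero => norm_num
  | succ n ih =>
    rcases n with _ | n
    · norm_num
    · have h1 := nine_fourths (n + 1 + 1) (by omega)
      have h2 : (((n + 1 + 1 : ℕ) : ℝ)) ^ (n + 1 + 1) = ((n + 1 : ℕ) + 1 : ℝ) ^ (n + 1) *
          ((n + 1 : ℕ) + 1 : ℝ) := by
        push_cast
        ring
      rw [Nat.factorial_succ]
      calc (8 / 9 : ℝ) * (9 / 4) ^ (n + 1 + 1) * (((n + 1 + 1) * (n + 1).factorial : ℕ) : ℝ)
          = 9 / 4 * (((8 / 9 : ℝ) * (9 / 4) ^ (n + 1) * ((n + 1).factorial : ℝ)) *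
              ((n + 1 : ℕ) + 1 : ℝ)) := by
            push_cast
            ring
        _ ≤ 9 / 4 * ((((n + 1 : ℕ) : ℝ) + 1) ^ (n + 1) * ((n + 1 : ℕ) + 1 : ℝ)) := by
            refine mul_le_mul_of_nonneg_left ?_ (by norm_num)
            exact mul_le_mul_of_nonneg_right ih (by positivity)
        _ ≤ _ := by
            rw [← h2]
            exact h1

/-- The product of the binomial coefficients. -/
def AA (n : ℕ) : ℕ := ∏ m ∈ range n, n.choose m

lemma AA_succ (n : ℕ) : AA (n + 1) * n.factorial = (n + 1) ^ n * AA n := by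
  have h1 : AA (n + 1) * (n + 1).factorial = (n + 1) ^ (n + 1) * AA n := by
    have h2 : ∏ m ∈ range (n + 1), (n + 1 - m) = (n + 1).factorial := by
      rw [← prod_range_reflect, ← prod_range_add_one_eq_factorial]
      refine prod_congr rfl fun m hm => ?_
      rw [mem_range] at hm
      omega
    have h3 : AA n = ∏ m ∈ range (n + 1), n.choose m := by
      rw [prod_range_succ, Nat.choose_self, mul_one]
      rfl
    rw [← h2, AA, ← prod_mul_distrib, h3]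
    have h4 : (n + 1) ^ (n + 1) = ∏ _m ∈ range (n + 1), (n + 1) := by simp
    rw [h4, ← prod_mul_distrib]
    refine prod_congr rfl fun m hm => ?_
    rw [← Nat.choose_mul_succ_eq, mul_comm]
  rw [Nat.factorial_succ] at h1
  have h5 : (n + 1) * (AA (n + 1) * n.factorial) = (n + 1) * ((n + 1) ^ n * AA n) := by
    calc (n + 1) * (AA (n + 1) * n.factorial) = AA (n + 1) * ((n + 1) * n.factorial) := by ring
      _ = (n + 1) ^ (n + 1) * AA n := h1
      _ = _ := by ring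
  exact Nat.eq_of_mul_eq_mul_left (Nat.succ_pos n) h5

lemma AA_bound (n : ℕ) : (8 / 9 : ℝ) ^ n * (9 / 4) ^ (n.choose 2) ≤ (AA n : ℝ) := by
  induction n with
  | zero => simp [AA]
  | succ n ih =>
    have h1 : (AA (n + 1) : ℝ) * (n.factorial : ℝ) = ((n : ℝ) + 1) ^ n * AA n := by
      exact_mod_cast AA_succ n
    have h2 := cn_bound n
    have hf : (0 : ℝ) < n.factorial := by exact_mod_cast Nat.factorial_pos n
    have h3 : (n + 1).choose 2 = n + n.choose 2 := by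
      rw [Nat.choose_succ_succ' n 1, Nat.choose_one_right]
    rw [← mul_le_mul_iff_left₀ hf, h1, h3]
    calc (8 / 9 : ℝ) ^ (n + 1) * (9 / 4) ^ (n + n.choose 2) * (n.factorial : ℝ)
        = ((8 / 9 : ℝ) * (9 / 4) ^ n * (n.factorial : ℝ)) *
            ((8 / 9 : ℝ) ^ n * (9 / 4) ^ (n.choose 2)) := by ring
      _ ≤ ((n : ℝ) + 1) ^ n * ((8 / 9 : ℝ) ^ n * (9 / 4) ^ (n.choose 2)) :=
          mul_le_mul_of_nonneg_right h2 (by positivity)
      _ ≤ ((n : ℝ) + 1) ^ n * AA n := mul_le_mul_of_nonneg_left ih (by positivity)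

/-! ### The expected number of bad pairs -/

lemma card_compl_Mf (n : ℕ) : ((range n).filter fun m => ¬ n < 20 * m).card ≤ n / 20 + 1 := by
  have h : (range n).filter (fun m => ¬ n < 20 * m) ⊆ range (n / 20 + 1) := by
    intro m hm
    rw [mem_filter] at hm
    rw [mem_range]
    omega
  exact (card_le_card h).trans (card_range _).le

lemma AA_le (n : ℕ) : AA n ≤ (∏ m ∈ Mf n, n.choose m) * (2 ^ n) ^ (n / 20 + 1) := by
  unfold AA Mf
  rw [← prod_filter_mul_prod_filter_not (range n) (fun m => n < 20 * m)]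
  refine Nat.mul_le_mul_left _ ?_
  calc ∏ m ∈ (range n).filter (fun m => ¬ n < 20 * m), n.choose m
      ≤ ∏ _m ∈ (range n).filter (fun m => ¬ n < 20 * m), 2 ^ n :=
        prod_le_prod' fun m _ => Nat.choose_le_two_pow n m
    _ = (2 ^ n) ^ ((range n).filter (fun m => ¬ n < 20 * m)).card := by rw [prod_const]
    _ ≤ (2 ^ n) ^ (n / 20 + 1) := Nat.pow_le_pow_right (by positivity) (card_compl_Mf n)

lemma rpow_bound : (2 : ℝ) ^ (7 / 6 : ℝ) ≤ 9 / 4 := by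
  have h1 : ((2 : ℝ) ^ (7 / 6 : ℝ)) ^ (6 : ℕ) ≤ (9 / 4 : ℝ) ^ (6 : ℕ) := by
    rw [← Real.rpow_natCast, ← Real.rpow_mul (by norm_num)]
    norm_num
  exact le_of_pow_le_pow_left₀ (by norm_num) (by norm_num) h1

lemma qq_le {n m : ℕ} (h : Big n) (hm : m ∈ Mf n) :
    qq (qf m + 2) (kf n) n m ≤ (2 : ℝ) ^ ((n : ℝ) / 100) / (n.choose m : ℝ) := by
  obtain ⟨e, he, h1⟩ := num_small h hm
  have hmn := (mem_Mf.1 hm).1
  have hC : (0 : ℝ) < n.choose m := by exact_mod_cast Nat.choose_pos hmn.le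
  unfold qq
  refine div_le_div_of_nonneg_right ?_ hC.le
  have h2 : (6 * (((n + 1) ^ (2 * kf n) * (2 ^ ((qf m + 2) ^ 2) * n ^ 3) * n ^ (qf m + 2) : ℕ) :
      ℝ)) ≤ (2 : ℝ) ^ e := by exact_mod_cast h1
  refine h2.trans ?_
  rw [← Real.rpow_natCast]
  refine Real.rpow_le_rpow_of_exponent_le (by norm_num) ?_
  have h3 : (100 : ℝ) * e ≤ n := by exact_mod_cast he
  linarith

lemma choose_two_real (n : ℕ) : ((n.choose 2 : ℕ) : ℝ) = n * (n - 1) / 2 := Nat.cast_choose_two ℝ n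

theorem prod_bound {n : ℕ} (h : Big n) :
    (n : ℝ) * 2 ^ (n.choose 2) * ∏ m ∈ Mf n, qq (qf m + 2) (kf n) n m ≤ (1 / 2) ^ n := by
  have hn : (200 : ℝ) ≤ n := by exact_mod_cast h.1
  set P := ∏ m ∈ Mf n, (n.choose m : ℝ) with hP
  have hPpos : 0 < P := prod_pos fun m hm => by
    exact_mod_cast Nat.choose_pos (mem_Mf.1 hm).1.le
  -- numerator
  have h1 : ∏ m ∈ Mf n, qq (qf m + 2) (kf n) n m ≤ (2 : ℝ) ^ ((n : ℝ) / 100 * n) / P := by
    calc ∏ m ∈ Mf n, qq (qf m + 2) (kf n) n m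
        ≤ ∏ m ∈ Mf n, ((2 : ℝ) ^ ((n : ℝ) / 100) / (n.choose m : ℝ)) :=
          prod_le_prod (fun m _ => qq_nonneg _ _ _ _) fun m hm => qq_le h hm
      _ = ((2 : ℝ) ^ ((n : ℝ) / 100)) ^ (Mf n).card / P := by
          rw [prod_div_distrib, prod_const]
      _ ≤ _ := by
          refine div_le_div_of_nonneg_right ?_ hPpos.le
          rw [← Real.rpow_natCast, ← Real.rpow_mul (by norm_num)]
          refine Real.rpow_le_rpow_of_exponent_le (by norm_num) ?_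
          refine mul_le_mul_of_nonneg_left ?_ (by positivity)
          have : (Mf n).card ≤ n := (card_filter_le _ _).trans (card_range n).le
          exact_mod_cast this
  -- denominator
  have h2 : (2 : ℝ) ^ (-(n : ℝ) + 7 / 6 * (n * (n - 1) / 2) - n * (n / 20 + 1)) ≤ P := by
    have h3 : (AA n : ℝ) ≤ P * (2 ^ n) ^ (n / 20 + 1) := by
      have := AA_le n
      rw [hP]
      exact_mod_cast this
    have h4 : (2 : ℝ) ^ (-(n : ℝ)) ≤ (8 / 9) ^ n := by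
      rw [Real.rpow_neg (by norm_num), Real.rpow_natCast, ← inv_pow]
      exact pow_le_pow_left₀ (by norm_num) (by norm_num) n
    have h5 : (2 : ℝ) ^ (7 / 6 * ((n : ℝ) * (n - 1) / 2)) ≤ (9 / 4) ^ (n.choose 2) := by
      rw [Real.rpow_mul (by norm_num), ← choose_two_real, Real.rpow_natCast]
      exact pow_le_pow_left₀ (by positivity) rpow_bound _
    have h6 : (2 : ℝ) ^ (-(n : ℝ) + 7 / 6 * (n * (n - 1) / 2)) ≤ AA n := by
      rw [Real.rpow_add (by norm_num)]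
      exact (mul_le_mul h4 h5 (by positivity) (by positivity)).trans (AA_bound n)
    have h7 : (((2 : ℝ) ^ n) ^ (n / 20 + 1)) ≤ (2 : ℝ) ^ ((n : ℝ) * (n / 20 + 1)) := by
      rw [← pow_mul, ← Real.rpow_natCast]
      refine Real.rpow_le_rpow_of_exponent_le (by norm_num) ?_
      have h8 : ((n / 20 : ℕ) : ℝ) ≤ (n : ℝ) / 20 := Nat.cast_div_le
      push_cast
      refine mul_le_mul_of_nonneg_left ?_ (by positivity)
      linarith
    rw [Real.rpow_sub (by norm_num), div_le_iff₀ (by positivity)]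
    exact h6.trans (h3.trans (mul_le_mul_of_nonneg_left h7 hPpos.le))
  have h3 : (n : ℝ) ≤ (2 : ℝ) ^ (n : ℝ) := by
    rw [Real.rpow_natCast]
    exact_mod_cast Nat.lt_two_pow_self.le
  have h4 : ((2 : ℝ) ^ (n.choose 2)) = (2 : ℝ) ^ ((n : ℝ) * (n - 1) / 2) := by
    rw [← choose_two_real, Real.rpow_natCast]
  have h5 : ((1 / 2 : ℝ)) ^ n = (2 : ℝ) ^ (-(n : ℝ)) := by
    rw [Real.rpow_neg (by norm_num), Real.rpow_natCast, one_div, inv_pow]
  rw [h4, h5]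
  calc (n : ℝ) * (2 : ℝ) ^ ((n : ℝ) * (n - 1) / 2) * ∏ m ∈ Mf n, qq (qf m + 2) (kf n) n m
      ≤ (2 : ℝ) ^ (n : ℝ) * (2 : ℝ) ^ ((n : ℝ) * (n - 1) / 2) *
          ((2 : ℝ) ^ ((n : ℝ) / 100 * n) /
            (2 : ℝ) ^ (-(n : ℝ) + 7 / 6 * (n * (n - 1) / 2) - n * (n / 20 + 1))) := by
        refine mul_le_mul (mul_le_mul_of_nonneg_right h3 (by positivity)) ?_
          (prod_nonneg fun m _ => qq_nonneg _ _ _ _) (by positivity)
        exact h1.trans (div_le_div_of_nonneg_left (by positivity) (by positivity) h2)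
    _ = (2 : ℝ) ^ ((n : ℝ) + (n : ℝ) * (n - 1) / 2 + ((n : ℝ) / 100 * n -
          (-(n : ℝ) + 7 / 6 * (n * (n - 1) / 2) - n * (n / 20 + 1)))) := by
        rw [← Real.rpow_add (by norm_num), ← Real.rpow_sub (by norm_num),
          ← Real.rpow_add (by norm_num)]
    _ ≤ _ := by
        refine Real.rpow_le_rpow_of_exponent_le (by norm_num) ?_
        nlinarith

end Q122.Harary
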