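import Mathlib

set_option autoImplicit false

/-!
# Reconstruction from the types of small induced subgraphs
-/

namespace Q122.Harary

open Finset

set_option linter.unusedSectionVars false

variable {V : Type} [Fintype V] [DecidableEq V]

/-- `f` embeds the subgraph of `G` induced on `Q` into `H`. -/
def IsEmb (G H : SimpleGraph V) (Q : Finset V) (f : V → V) : Prop :=
  Set.InjOn f (Q : Set V) ∧ ∀ a ∈ Q, ∀ b ∈ Q, (H.Adj (f a) (f b) ↔ G.Adj a b)

lemma IsEmb.mono {G H : SimpleGraph V} {Q R : Finset V} {f : V → V} (h : IsEmb G H R f)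
    (hQR : Q ⊆ R) : IsEmb G H Q f :=
  ⟨h.1.mono (by exact_mod_cast hQR), fun a ha b hb => h.2 a (hQR ha) b (hQR hb)⟩

/-- The conditions on a vertex set `Q` that make it a good reference set of `G`. -/
def Good (G : SimpleGraph V) (Q : Finset V) : Prop :=
  (∀ f, IsEmb G G Q f → ∀ a ∈ Q, f a = a) ∧
  ∀ u v, u ∉ Q → v ∉ Q → (∀ w ∈ Q, (G.Adj u w ↔ G.Adj v w)) → u = v

/-- If `f, f'` embed `G[Q]`, `G[Q']` into `H` with the same image, and `Q` is good in `G`, then
`Q = Q'` and `f = f'` on `Q`. -/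
lemma good_unique {G H : SimpleGraph V} {Q Q' : Finset V} {f f' : V → V} (hQ : Good G Q)
    (hf : IsEmb G H Q f) (hf' : IsEmb G H Q' f') (him : Q.image f = Q'.image f') :
    Q = Q' ∧ ∀ a ∈ Q, f a = f' a := by
  classical
  -- the composite `f'⁻¹ ∘ f : Q → Q'`
  have hex : ∀ a ∈ Q, ∃ b ∈ Q', f' b = f a := by
    intro a ha
    have : f a ∈ Q'.image f' := by
      rw [← him]
      exact mem_image_of_mem f ha
    simpa using this
  choose! g hg hg' using hex
  have hemb : IsEmb G G Q g := by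
    refine ⟨fun a ha b hb hab => ?_, fun a ha b hb => ?_⟩
    · have ha' : a ∈ Q := by exact_mod_cast ha
      have hb' : b ∈ Q := by exact_mod_cast hb
      refine hf.1 ha hb ?_
      rw [← hg' a ha', ← hg' b hb', hab]
    · rw [← hf'.2 (g a) (hg a ha) (g b) (hg b hb), hg' a ha, hg' b hb]
      exact hf.2 a ha b hb
  have hid := hQ.1 g hemb
  have hsub : Q ⊆ Q' := fun a ha => by
    have := hg a ha
    rwa [hid a ha] at this
  have hcard : Q'.card ≤ Q.card := by
    have h1 : (Q.image f).card = Q.card := card_image_of_injOn hf.1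
    have h2 : (Q'.image f').card = Q'.card := card_image_of_injOn hf'.1
    rw [← h1, ← h2, him]
  refine ⟨eq_of_subset_of_card_le hsub hcard, fun a ha => ?_⟩
  have := hg' a ha
  rw [hid a ha] at this
  exact this.symm

open Classical in
/-- The key reconstruction lemma. -/
theorem recon (G H : SimpleGraph V) (q : ℕ) (hq : q + 2 ≤ Fintype.card V)
    (hgood : ((univ : Finset V).powersetCard q).card <
      2 * (((univ : Finset V).powersetCard q).filter fun Q => Good G Q).card)
    (hemb : ∀ R : Finset V, R.card = q + 2 → ∃ f, IsEmb G H R f) :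
    Nonempty (G ≃g H) := by
  have hne0 : Nonempty (V → V) := ⟨id⟩
  have hne1 : Nonempty V := Fintype.card_pos_iff.1 (by omega)
  -- extend small sets
  have hext : ∀ R : Finset V, R.card ≤ q + 2 → ∃ R' : Finset V, R ⊆ R' ∧ R'.card = q + 2 := by
    intro R hR
    obtain ⟨R', h1, -, h2⟩ := exists_subsuperset_card_eq (subset_univ R) hR (by simpa using hq)
    exact ⟨R', h1, h2⟩
  have hemb' : ∀ R : Finset V, R.card ≤ q + 2 → ∃ f, IsEmb G H R f := by
    intro R hR
    obtain ⟨R', h1, h2⟩ := hext R hR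
    obtain ⟨f, hf⟩ := hemb R' h2
    exact ⟨f, hf.mono h1⟩
  choose! F hF using hemb'
  set 𝒬 := ((univ : Finset V).powersetCard q).filter fun Q => Good G Q with h𝒬
  have hcard𝒬 : ∀ Q ∈ 𝒬, Q.card = q := by
    intro Q hQ
    rw [h𝒬, mem_filter, mem_powersetCard] at hQ
    exact hQ.1.2
  have hgood𝒬 : ∀ Q ∈ 𝒬, Good G Q := by
    intro Q hQ
    rw [h𝒬, mem_filter] at hQ
    exact hQ.2
  have hFQ : ∀ Q ∈ 𝒬, IsEmb G H Q (F Q) := fun Q hQ => hF Q (by rw [hcard𝒬 Q hQ]; omega)
  -- a good set with a unique copy in `H`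
  have huniq : ∃ Q ∈ 𝒬, ∀ f, IsEmb G H Q f → Q.image f = Q.image (F Q) := by
    by_contra hcon
    push Not at hcon
    choose! f' hf' hne using hcon
    have hinj1 : Set.InjOn (fun Q => Q.image (F Q)) (𝒬 : Set (Finset V)) := by
      intro Q hQ Q' hQ' h
      exact (good_unique (hgood𝒬 Q hQ) (hFQ Q hQ) (hFQ Q' hQ') h).1
    have hinj2 : Set.InjOn (fun Q => Q.image (f' Q)) (𝒬 : Set (Finset V)) := by
      intro Q hQ Q' hQ' h
      exact (good_unique (hgood𝒬 Q hQ) (hf' Q hQ) (hf' Q' hQ') h).1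
    have hdisj : Disjoint (𝒬.image fun Q => Q.image (F Q)) (𝒬.image fun Q => Q.image (f' Q)) := by
      rw [disjoint_left]
      intro A hA hA'
      rw [mem_image] at hA hA'
      obtain ⟨Q, hQ, rfl⟩ := hA
      obtain ⟨Q', hQ', h⟩ := hA'
      have h1 := (good_unique (hgood𝒬 Q' hQ') (hf' Q' hQ') (hFQ Q hQ) h).1
      subst h1
      exact hne Q' hQ h
    have hsub : (𝒬.image fun Q => Q.image (F Q)) ∪ (𝒬.image fun Q => Q.image (f' Q)) ⊆
        (univ : Finset V).powersetCard q := by
      intro A hA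
      rw [mem_union, mem_image, mem_image] at hA
      rw [mem_powersetCard]
      refine ⟨subset_univ _, ?_⟩
      rcases hA with ⟨Q, hQ, rfl⟩ | ⟨Q, hQ, rfl⟩
      · rw [card_image_of_injOn (hFQ Q hQ).1, hcard𝒬 Q hQ]
      · rw [card_image_of_injOn (hf' Q hQ).1, hcard𝒬 Q hQ]
    have h1 := card_le_card hsub
    rw [card_union_of_disjoint hdisj, card_image_of_injOn hinj1, card_image_of_injOn hinj2] at h1
    omega
  obtain ⟨Q, hQ, hQu⟩ := huniq
  have hQc := hcard𝒬 Q hQ
  have hQg := hgood𝒬 Q hQ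
  set φ := F Q with hφ
  have hφe : IsEmb G H Q φ := hFQ Q hQ
  have hQu' : ∀ f, IsEmb G H Q f → ∀ a ∈ Q, f a = φ a := by
    intro f hf a ha
    exact (good_unique hQg hf hφe (hQu f hf)).2 a ha
  -- the candidate images of outer vertices
  have hvec : ∀ u, u ∉ Q → ∃ x, x ∉ Q.image φ ∧ ∀ w ∈ Q, (H.Adj x (φ w) ↔ G.Adj u w) := by
    intro u hu
    have hc : (insert u Q).card ≤ q + 2 := by
      rw [card_insert_of_notMem hu]
      omega
    have hf := hF (insert u Q) hc
    have hfQ := hQu' _ (hf.mono (subset_insert u Q))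
    refine ⟨F (insert u Q) u, ?_, ?_⟩
    · intro hmem
      rw [mem_image] at hmem
      obtain ⟨w, hw, hwu⟩ := hmem
      rw [← hfQ w hw] at hwu
      have := hf.1 (by exact_mod_cast mem_insert_of_mem hw) (by exact_mod_cast mem_insert_self u Q)
        hwu
      exact hu (this ▸ hw)
    · intro w hw
      rw [← hfQ w hw]
      exact hf.2 u (mem_insert_self u Q) w (mem_insert_of_mem hw)
  choose! ψ hψ1 hψ2 using hvec
  have hψinj : Set.InjOn ψ ((Qᶜ : Finset V) : Set V) := by
    intro u hu v hv huv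
    have hu' : u ∉ Q := by simpa using hu
    have hv' : v ∉ Q := by simpa using hv
    refine hQg.2 u v hu' hv' fun w hw => ?_
    rw [← hψ2 u hu' w hw, ← hψ2 v hv' w hw, huv]
  have himage : (Qᶜ).image ψ = (Q.image φ)ᶜ := by
    refine eq_of_subset_of_card_le ?_ ?_
    · intro x hx
      rw [mem_image] at hx
      obtain ⟨u, hu, rfl⟩ := hx
      rw [mem_compl] at hu ⊢
      exact hψ1 u hu
    · rw [card_image_of_injOn hψinj, card_compl, card_compl, card_image_of_injOn hφe.1]
  have hψuniq : ∀ u, u ∉ Q → ∀ x, x ∉ Q.image φ → (∀ w ∈ Q, (H.Adj x (φ w) ↔ G.Adj u w)) →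
      x = ψ u := by
    intro u hu x hx hxw
    have hx' : x ∈ (Qᶜ).image ψ := by
      rw [himage, mem_compl]
      exact hx
    rw [mem_image] at hx'
    obtain ⟨u', hu', rfl⟩ := hx'
    rw [mem_compl] at hu'
    have : u = u' := by
      refine hQg.2 u u' hu hu' fun w hw => ?_
      rw [← hxw w hw, hψ2 u' hu' w hw]
    rw [this]
  -- the isomorphism
  let Ψ : V → V := fun u => if u ∈ Q then φ u else ψ u
  have hΨQ : ∀ u ∈ Q, Ψ u = φ u := fun u hu => if_pos hu
  have hΨn : ∀ u, u ∉ Q → Ψ u = ψ u := fun u hu => if_neg hu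
  have hΨinj : Function.Injective Ψ := by
    intro u v huv
    by_cases hu : u ∈ Q <;> by_cases hv : v ∈ Q
    · rw [hΨQ u hu, hΨQ v hv] at huv
      exact hφe.1 hu hv huv
    · rw [hΨQ u hu, hΨn v hv] at huv
      exact absurd (mem_image.2 ⟨u, hu, huv⟩) (hψ1 v hv)
    · rw [hΨn u hu, hΨQ v hv] at huv
      exact absurd (mem_image.2 ⟨v, hv, huv.symm⟩) (hψ1 u hu)
    · rw [hΨn u hu, hΨn v hv] at huv
      exact hψinj (by simpa using hu) (by simpa using hv) huv
  have hΨbij : Function.Bijective Ψ := Finite.injective_iff_bijective.1 hΨinj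
  have hadj : ∀ u v, H.Adj (Ψ u) (Ψ v) ↔ G.Adj u v := by
    intro u v
    by_cases hu : u ∈ Q <;> by_cases hv : v ∈ Q
    · rw [hΨQ u hu, hΨQ v hv]
      exact hφe.2 u hu v hv
    · rw [hΨQ u hu, hΨn v hv, H.adj_comm, G.adj_comm]
      exact hψ2 v hv u hu
    · rw [hΨn u hu, hΨQ v hv]
      exact hψ2 u hu v hv
    · by_cases huv : u = v
      · subst huv
        simp
      rw [hΨn u hu, hΨn v hv]
      set R := insert u (insert v Q) with hR
      have hRc : R.card ≤ q + 2 := by
        rw [hR]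
        refine (card_insert_le _ _).trans ?_
        have := card_insert_le v Q
        omega
      have hf := hF R hRc
      have huR : u ∈ R := mem_insert_self _ _
      have hvR : v ∈ R := mem_insert_of_mem (mem_insert_self _ _)
      have hQR : Q ⊆ R := (subset_insert v Q).trans (subset_insert u _)
      have hfQ := hQu' _ (hf.mono hQR)
      have key : ∀ z ∈ R, z ∉ Q → F R z = ψ z := by
        intro z hzR hz
        refine hψuniq z hz _ ?_ ?_
        · intro hmem
          rw [mem_image] at hmem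
          obtain ⟨w, hw, hwu⟩ := hmem
          rw [← hfQ w hw] at hwu
          have := hf.1 (by exact_mod_cast hQR hw) (by exact_mod_cast hzR) hwu
          exact hz (this ▸ hw)
        · intro w hw
          rw [← hfQ w hw]
          exact hf.2 z hzR w (hQR hw)
      rw [← key u huR hu, ← key v hvR hv]
      exact hf.2 u huR v hvR
  exact ⟨⟨Equiv.ofBijective Ψ hΨbij, fun {a b} => hadj a b⟩⟩

end Q122.Harary
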