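import Pool.Agent.Q122.Harary.Level
import Pool.Agent.Q122.Harary.Poly

set_option autoImplicit false

/-!
# The property attached to a family of levels, and the triangular structure of `hcount`
-/

namespace Q122.Harary

open Finset

set_option linter.unusedSectionVars false

/-- A family of levels. -/
abbrev Levels : Type := ∀ m : ℕ, SimpleGraph (Fin m) → Prop

/-- The graph property defined by a family of levels: all one-vertex graphs, and the graphs on
`m ≠ 1` vertices whose representative belongs to the level `m`. -/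
def propOf (L : Levels) : GraphProperty where
  Mem {V} G := ∃ (m : ℕ) (F : SimpleGraph (Fin m)), Nonempty (G ≃g F) ∧ (m = 1 ∨ L m (rep F))
  iso_closed := by
    rintro V W G H ⟨e⟩ ⟨m, F, ⟨e'⟩, h⟩
    exact ⟨m, F, ⟨e.symm.trans e'⟩, h⟩

lemma propOf_one (L : Levels) (V : Type) (G : SimpleGraph V) (h : Nat.card V = 1) :
    (propOf L).Mem G := by
  have : Finite V := Nat.finite_of_card_ne_zero (by omega)
  have e : V ≃ Fin 1 := Finite.equivFinOfCardEq h
  exact ⟨1, G.comap e.symm, ⟨⟨e, fun {a b} => by simp⟩⟩, Or.inl rfl⟩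

variable {V : Type} [Fintype V] [DecidableEq V]

lemma propOf_induce (L : Levels) (G : SimpleGraph V) (S : Finset V) (m : ℕ) (hS : S.card = m)
    (hm : m ≠ 1) : (propOf L).Mem (G.induce (↑S : Set V)) ↔ L m (typ G m S) := by
  obtain ⟨e⟩ := typ_iso G m S hS
  constructor
  · rintro ⟨m', F, ⟨e'⟩, h⟩
    have hmm : m' = m := by
      have := Fintype.card_congr (e.trans e').toEquiv
      simpa using this.symm
    subst hmm
    rcases h with h | h
    · exact absurd h hm
    · rw [← rep_typ G m' S hS, rep_eq ⟨e.trans e'⟩]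
      exact h
  · intro h
    refine ⟨m, typ G m S, ⟨e.symm⟩, Or.inr ?_⟩
    rw [rep_typ G m S hS]
    exact h

/-- Number of partitions with `i` blocks, all of them of size less than `m`. -/
noncomputable def restCnt (P : GraphProperty) (G : SimpleGraph V) (i m : ℕ) : ℕ :=
  Nat.card {π : Finpartition (univ : Finset V) //
    π.parts.card = i ∧ (∀ B ∈ π.parts, P.Mem (G.induce (↑B : Set V))) ∧ ∀ B ∈ π.parts, B.card < m}

lemma restCnt_congr (L L' : Levels) (m : ℕ) (h : ∀ j < m, L j = L' j) (G : SimpleGraph V)
    (i : ℕ) : restCnt (propOf L) G i m = restCnt (propOf L') G i m := by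
  unfold restCnt
  refine Nat.card_congr (Equiv.subtypeEquivRight fun π => ?_)
  have key : ∀ B : Finset V, B.card < m →
      ((propOf L).Mem (G.induce (↑B : Set V)) ↔ (propOf L').Mem (G.induce (↑B : Set V))) := by
    intro B hB
    by_cases h1 : B.card = 1
    · have hc : Nat.card (↑B : Set V) = 1 := by simp [h1]
      exact ⟨fun _ => propOf_one L' _ _ hc, fun _ => propOf_one L _ _ hc⟩
    · rw [propOf_induce L G B _ rfl h1, propOf_induce L' G B _ rfl h1, h _ hB]
  constructor
  · rintro ⟨h1, h2, h3⟩
    exact ⟨h1, fun B hB => (key B (h3 B hB)).1 (h2 B hB), h3⟩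
  · rintro ⟨h1, h2, h3⟩
    exact ⟨h1, fun B hB => (key B (h3 B hB)).2 (h2 B hB), h3⟩

/-- The partition with one block `S` and all other blocks singletons. -/
def onePart (S : Finset V) (hS : S.Nonempty) : Finpartition (univ : Finset V) :=
  (⊥ : Finpartition Sᶜ).extend (b := S) (c := univ) (by
    rw [bot_eq_empty]
    exact hS.ne_empty) (disjoint_compl_left) (by
    rw [sup_eq_union, union_comm, union_compl])

lemma mem_onePart (S : Finset V) (hS : S.Nonempty) (B : Finset V) :
    B ∈ (onePart S hS).parts ↔ B = S ∨ ∃ a, a ∉ S ∧ {a} = B := by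
  unfold onePart
  simp [Finpartition.extend]

lemma card_onePart (S : Finset V) (hS : S.Nonempty) :
    (onePart S hS).parts.card = Fintype.card V - S.card + 1 := by
  unfold onePart
  rw [Finpartition.card_extend, Finpartition.card_bot, card_compl]

lemma eq_onePart (π : Finpartition (univ : Finset V)) (S : Finset V) (hS : S ∈ π.parts)
    (hc : π.parts.card = Fintype.card V - S.card + 1) :
    π = onePart S (π.nonempty_of_mem_parts hS) := by
  have hsum : ∑ B ∈ π.parts.erase S, B.card + S.card = Fintype.card V := by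
    rw [sum_erase_add _ _ hS, π.sum_card_parts, card_univ]
  have hcard : (π.parts.erase S).card = Fintype.card V - S.card := by
    rw [card_erase_of_mem hS, hc]
    omega
  have hone : ∀ B ∈ π.parts.erase S, B.card = 1 := by
    by_contra hcon
    push Not at hcon
    obtain ⟨B, hB, hB1⟩ := hcon
    have h3 : (π.parts.erase S).card < ∑ i ∈ π.parts.erase S, i.card := by
      rw [card_eq_sum_ones]
      refine sum_lt_sum (fun i hi => ?_) ⟨B, hB, ?_⟩
      · exact (π.nonempty_of_mem_parts (mem_of_mem_erase hi)).card_pos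
      · have := (π.nonempty_of_mem_parts (mem_of_mem_erase hB)).card_pos
        omega
    omega
  apply Finpartition.ext
  ext B
  rw [mem_onePart]
  constructor
  · intro hB
    by_cases hBS : B = S
    · exact Or.inl hBS
    · right
      obtain ⟨a, ha⟩ := card_eq_one.1 (hone B (mem_erase.2 ⟨hBS, hB⟩))
      refine ⟨a, fun haS => hBS ?_, ha.symm⟩
      exact π.eq_of_mem_parts hB hS (by rw [ha]; exact mem_singleton_self a) haS
  · rintro (rfl | ⟨a, haS, rfl⟩)
    · exact hS
    · obtain ⟨t, ht, hat⟩ := π.exists_mem (mem_univ a)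
      have htS : t ≠ S := fun h => haS (h ▸ hat)
      obtain ⟨b, hb⟩ := card_eq_one.1 (hone t (mem_erase.2 ⟨htS, ht⟩))
      rw [hb, mem_singleton] at hat
      rw [hat, ← hb]
      exact ht

/-- The triangular structure. -/
theorem hcount_eq (L : Levels) (G : SimpleGraph V) (m : ℕ) (h2 : 2 ≤ m)
    (hm : m ≤ Fintype.card V) :
    hcount (propOf L) G (Fintype.card V - m + 1) =
      cntLev G (L m) + restCnt (propOf L) G (Fintype.card V - m + 1) m := by
  classical
  set i := Fintype.card V - m + 1 with hi
  set P := propOf L with hP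
  -- all blocks have size at most `m`
  have hle : ∀ π : Finpartition (univ : Finset V), π.parts.card = i → ∀ B ∈ π.parts,
      B.card ≤ m := by
    intro π hπ B hB
    have hsum : ∑ C ∈ π.parts.erase B, C.card + B.card = Fintype.card V := by
      rw [sum_erase_add _ _ hB, π.sum_card_parts, card_univ]
    have h3 : (π.parts.erase B).card ≤ ∑ C ∈ π.parts.erase B, C.card := by
      rw [card_eq_sum_ones]
      exact sum_le_sum fun C hC => (π.nonempty_of_mem_parts (mem_of_mem_erase hC)).card_pos
    rw [card_erase_of_mem hB, hπ] at h3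
    omega
  have hsplit : hcount P G i =
      Nat.card {π : Finpartition (univ : Finset V) // (π.parts.card = i ∧
        ∀ B ∈ π.parts, P.Mem (G.induce (↑B : Set V))) ∧ ∃ B ∈ π.parts, B.card = m} +
      restCnt P G i m := by
    unfold hcount restCnt
    rw [Nat.card_eq_fintype_card, Nat.card_eq_fintype_card, Nat.card_eq_fintype_card,
      Fintype.card_subtype, Fintype.card_subtype, Fintype.card_subtype,
      ← card_filter_add_card_filter_not (s := univ.filter fun π : Finpartition (univ : Finset V) =>
        π.parts.card = i ∧ ∀ B ∈ π.parts, P.Mem (G.induce (↑B : Set V)))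
        (fun π => ∃ B ∈ π.parts, B.card = m), filter_filter, filter_filter]
    congr 2
    refine filter_congr fun π _ => ?_
    constructor
    · rintro ⟨⟨h1, h3⟩, h4⟩
      push Not at h4
      exact ⟨h1, h3, fun B hB => lt_of_le_of_ne (hle π h1 B hB) (h4 B hB)⟩
    · rintro ⟨h1, h3, h4⟩
      refine ⟨⟨h1, h3⟩, ?_⟩
      push Not
      exact fun B hB => (h4 B hB).ne
  rw [hsplit]
  congr 1
  -- bijection with the `m`-subsets of the level
  unfold cntLev
  have hne : ∀ S : Finset V, S.card = m → S.Nonempty := fun S hS => by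
    rw [← card_pos]
    omega
  have hbij : Function.Bijective (fun S : {S : Finset V // S.card = m ∧ L m (typ G m S)} =>
      (⟨onePart S.1 (hne S.1 S.2.1), ⟨⟨by rw [card_onePart, S.2.1], by
        intro B hB
        rw [mem_onePart] at hB
        rcases hB with rfl | ⟨a, -, rfl⟩
        · exact (propOf_induce L G S.1 m S.2.1 (by omega)).2 S.2.2
        · exact propOf_one L _ _ (by simp)⟩, ⟨S.1, by rw [mem_onePart]; exact Or.inl rfl, S.2.1⟩⟩⟩ :
      {π : Finpartition (univ : Finset V) // (π.parts.card = i ∧
        ∀ B ∈ π.parts, P.Mem (G.induce (↑B : Set V))) ∧ ∃ B ∈ π.parts, B.card = m})) := by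
    constructor
    · rintro ⟨S, hS, hSL⟩ ⟨S', hS', hSL'⟩ h
      simp only [Subtype.mk.injEq] at h
      have h1 : S ∈ (onePart S' (hne S' hS')).parts := by
        rw [← h, mem_onePart]
        exact Or.inl rfl
      rw [mem_onePart] at h1
      rcases h1 with h1 | ⟨a, -, h1⟩
      · exact Subtype.ext h1
      · rw [← h1, card_singleton] at hS
        omega
    · rintro ⟨π, ⟨h1, h3⟩, S, hSπ, hSm⟩
      refine ⟨⟨S, hSm, ?_⟩, ?_⟩
      · rw [← propOf_induce L G S m hSm (by omega)]
        exact h3 S hSπ
      · apply Subtype.ext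
        exact (eq_onePart π S hSπ (by rw [h1, hSm])).symm
  rw [← Nat.card_eq_of_bijective _ hbij, Nat.card_eq_fintype_card, Fintype.card_subtype]
  congr 1
  ext S
  simp

end Q122.Harary
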