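import Pool.Agent.Q122.Harary.Typical

set_option autoImplicit false

/-!
# Isomorphism types of induced subgraphs
-/

namespace Q122.Harary

open Finset

set_option linter.unusedSectionVars false

/-- The isomorphism relation on the graphs with vertex set `Fin m`. -/
def isoSetoid (m : ℕ) : Setoid (SimpleGraph (Fin m)) where
  r F F' := Nonempty (F ≃g F')
  iseqv := ⟨fun _ => ⟨SimpleGraph.Iso.refl⟩, fun ⟨e⟩ => ⟨e.symm⟩, fun ⟨e⟩ ⟨e'⟩ => ⟨e.trans e'⟩⟩

/-- The chosen representative of the isomorphism class of `F`. -/
noncomputable def rep {m : ℕ} (F : SimpleGraph (Fin m)) : SimpleGraph (Fin m) :=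
  (Quotient.mk (isoSetoid m) F).out

lemma rep_iso {m : ℕ} (F : SimpleGraph (Fin m)) : Nonempty (rep F ≃g F) :=
  Quotient.exact (s := isoSetoid m) (Quotient.out_eq _)

lemma rep_eq {m : ℕ} {F F' : SimpleGraph (Fin m)} (h : Nonempty (F ≃g F')) : rep F = rep F' := by
  unfold rep
  rw [Quotient.sound (s := isoSetoid m) h]

lemma rep_rep {m : ℕ} (F : SimpleGraph (Fin m)) : rep (rep F) = rep F := rep_eq (rep_iso F)

variable {V : Type} [Fintype V] [DecidableEq V]

lemma exists_fin_iso (G : SimpleGraph V) (S : Finset V) (m : ℕ) (h : S.card = m) :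
    ∃ F : SimpleGraph (Fin m), Nonempty (F ≃g G.induce (↑S : Set V)) := by
  have e : Fin m ≃ (↑S : Set V) := (S.equivFinOfCardEq h).symm
  exact ⟨(G.induce (↑S : Set V)).comap e, ⟨⟨e, fun {a b} => by simp⟩⟩⟩

open Classical in
/-- The isomorphism type of the subgraph of `G` induced on `S`, as a graph on `Fin m`. -/
noncomputable def typ (G : SimpleGraph V) (m : ℕ) (S : Finset V) : SimpleGraph (Fin m) :=
  if h : ∃ F : SimpleGraph (Fin m), Nonempty (F ≃g G.induce (↑S : Set V)) then rep h.choose
  else ⊥

lemma typ_iso (G : SimpleGraph V) (m : ℕ) (S : Finset V) (h : S.card = m) :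
    Nonempty (typ G m S ≃g G.induce (↑S : Set V)) := by
  have hex := exists_fin_iso G S m h
  rw [typ, dif_pos hex]
  obtain ⟨e⟩ := hex.choose_spec
  obtain ⟨e'⟩ := rep_iso hex.choose
  exact ⟨e'.trans e⟩

lemma rep_typ (G : SimpleGraph V) (m : ℕ) (S : Finset V) (h : S.card = m) :
    rep (typ G m S) = typ G m S := by
  have hex := exists_fin_iso G S m h
  rw [typ, dif_pos hex, rep_rep]

lemma typ_iso_of_eq {G H : SimpleGraph V} {m : ℕ} {S S' : Finset V} (hS : S.card = m)
    (hS' : S'.card = m) (h : typ G m S = typ H m S') :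
    Nonempty (G.induce (↑S : Set V) ≃g H.induce (↑S' : Set V)) := by
  obtain ⟨e⟩ := typ_iso G m S hS
  obtain ⟨e'⟩ := typ_iso H m S' hS'
  rw [h] at e
  exact ⟨e.symm.trans e'⟩

open Classical in
/-- For typical `G`, an induced subgraph has few isomorphic copies. -/
lemma card_fiber {G : SimpleGraph V} {k : ℕ} (hG : NoDisj G k) (m : ℕ) (S₀ : Finset V)
    (hS₀ : S₀.card = m) :
    (((univ : Finset V).powersetCard m).filter fun S => typ G m S = typ G m S₀).card ≤
      (Fintype.card V + 1) ^ (2 * k) := by
  have hsmall : ∀ S ∈ (univ : Finset V).powersetCard m, typ G m S = typ G m S₀ →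
      (S \ S₀).card ≤ k := by
    intro S hS h
    have hSm := (mem_powersetCard.1 hS).2
    obtain ⟨e⟩ := typ_iso_of_eq hS₀ hSm h.symm
    -- `A = e⁻¹ (S \ S₀)`
    let f : V → V := fun x => if hx : x ∈ S₀ then (e ⟨x, by exact_mod_cast hx⟩ : V) else x
    have hf : ∀ x (hx : x ∈ S₀), f x = (e ⟨x, by exact_mod_cast hx⟩ : V) := fun x hx => dif_pos hx
    set A := S₀.filter fun x => f x ∉ S₀ with hA
    have hinj : Set.InjOn f (S₀ : Set V) := by
      intro x hx y hy hxy
      have hx' : x ∈ S₀ := by exact_mod_cast hx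
      have hy' : y ∈ S₀ := by exact_mod_cast hy
      rw [hf x hx', hf y hy'] at hxy
      have := e.injective (Subtype.ext hxy)
      simpa using this
    have hAlt : A.card < k := by
      refine hG.finset A f (hinj.mono (by exact_mod_cast filter_subset _ _)) ?_ ?_
      · intro a ha b hb
        have ha' : a ∈ S₀ := (mem_filter.1 ha).1
        have hb' : b ∈ S₀ := (mem_filter.1 hb).1
        rw [hf a ha', hf b hb']
        have := e.map_adj_iff (v := ⟨a, by exact_mod_cast ha'⟩) (w := ⟨b, by exact_mod_cast hb'⟩)
        simpa using this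
      · intro a ha h'
        exact (mem_filter.1 ha).2 (mem_filter.1 h').1
    have hsub : S \ S₀ ⊆ A.image f := by
      intro y hy
      rw [mem_sdiff] at hy
      rw [mem_image]
      set x := e.symm ⟨y, by exact_mod_cast hy.1⟩ with hx
      have hxS : (x : V) ∈ S₀ := by exact_mod_cast x.2
      have hfx : f x = y := by
        rw [hf x hxS]
        have : (⟨(x : V), by exact_mod_cast hxS⟩ : (↑S₀ : Set V)) = x := rfl
        rw [this, hx]
        simp
      refine ⟨x, ?_, hfx⟩
      rw [hA, mem_filter, hfx]
      exact ⟨hxS, hy.2⟩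
    have := (card_le_card hsub).trans card_image_le
    omega
  have hmap : ∀ S ∈ ((univ : Finset V).powersetCard m).filter fun S => typ G m S = typ G m S₀,
      (S \ S₀, S₀ \ S) ∈ ((univ : Finset V).powerset.filter fun D => D.card ≤ k) ×ˢ
        ((univ : Finset V).powerset.filter fun D => D.card ≤ k) := by
    intro S hS
    rw [mem_filter] at hS
    have h1 := hsmall S hS.1 hS.2
    have hSm := (mem_powersetCard.1 hS.1).2
    have h2 : (S₀ \ S).card = (S \ S₀).card := by
      have e1 := card_sdiff_add_card_inter S S₀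
      have e2 := card_sdiff_add_card_inter S₀ S
      rw [inter_comm] at e2
      omega
    simp only [powerset_univ, mem_product, mem_filter, mem_univ, true_and]
    omega
  have hinj : Set.InjOn (fun S : Finset V => (S \ S₀, S₀ \ S))
      ((((univ : Finset V).powersetCard m).filter fun S => typ G m S = typ G m S₀ :
        Finset (Finset V)) : Set (Finset V)) := by
    intro S _ S' _ h
    simp only [Prod.mk.injEq] at h
    ext x
    have h1 := Finset.ext_iff.1 h.1 x
    have h2 := Finset.ext_iff.1 h.2 x
    simp only [mem_sdiff] at h1 h2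
    tauto
  refine (card_le_card_of_injOn _ hmap hinj).trans ?_
  rw [card_product, two_mul, pow_add]
  have := card_small (univ : Finset V) k
  rw [card_univ] at this
  exact Nat.mul_le_mul this this

/-- There are many types of `m`-vertex induced subgraphs containing a given small subgraph. -/
lemma many_types {G : SimpleGraph V} {k : ℕ} (hG : NoDisj G k) {t : ℕ} (m : ℕ)
    (T : SimpleGraph (Fin t)) (hT : Nonempty (T ↪g G)) (htm : t ≤ m) :
    ∃ 𝓕 : Finset (SimpleGraph (Fin m)),
      (∀ F ∈ 𝓕, Nonempty (T ↪g F) ∧ ∃ S : Finset V, S.card = m ∧ typ G m S = F) ∧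
      (Fintype.card V - t).choose (m - t) ≤ (Fintype.card V + 1) ^ (2 * k) * 𝓕.card := by
  classical
  obtain ⟨ι⟩ := hT
  set R : Finset V := univ.map ι.toEmbedding with hR
  have hRc : R.card = t := by simp [hR]
  set 𝒮 := ((univ : Finset V).powersetCard m).filter fun S => R ⊆ S with h𝒮
  refine ⟨𝒮.image (typ G m), ?_, ?_⟩
  · intro F hF
    rw [mem_image] at hF
    obtain ⟨S, hS, rfl⟩ := hF
    rw [h𝒮, mem_filter, mem_powersetCard] at hS
    obtain ⟨e⟩ := typ_iso G m S hS.1.2
    refine ⟨?_, S, hS.1.2, rfl⟩
    let j : T ↪g G.induce (↑S : Set V) :=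
      { toFun := fun i => ⟨ι i, by
          have : ι i ∈ R := by rw [hR, mem_map]; exact ⟨i, mem_univ i, rfl⟩
          exact_mod_cast hS.2 this⟩
        inj' := fun a b h => ι.injective (congrArg Subtype.val h)
        map_rel_iff' := fun {a b} => by
          change G.Adj (ι a) (ι b) ↔ T.Adj a b
          exact ι.map_adj_iff }
    exact ⟨j.trans e.symm.toEmbedding⟩
  · have hc : 𝒮.card = (Fintype.card V - t).choose (m - t) := by
      have h1 : 𝒮 = ((Rᶜ).powersetCard (m - t)).image fun A => A ∪ R := by
        ext S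
        rw [h𝒮, mem_filter, mem_powersetCard, mem_image]
        constructor
        · rintro ⟨⟨-, hS⟩, hRS⟩
          refine ⟨S \ R, ?_, sdiff_union_of_subset hRS⟩
          rw [mem_powersetCard]
          refine ⟨fun x hx => ?_, ?_⟩
          · rw [mem_compl]
            exact (mem_sdiff.1 hx).2
          · rw [card_sdiff_of_subset hRS, hS, hRc]
        · rintro ⟨A, hA, rfl⟩
          rw [mem_powersetCard] at hA
          refine ⟨⟨subset_univ _, ?_⟩, subset_union_right⟩
          rw [card_union_of_disjoint, hA.2, hRc]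
          · omega
          · rw [disjoint_left]
            intro x hx
            have := hA.1 hx
            rwa [mem_compl] at this
      rw [h1, card_image_of_injOn, card_powersetCard, card_compl, hRc]
      intro A hA B hB hAB
      rw [mem_coe, mem_powersetCard] at hA hB
      simp only at hAB
      ext x
      have h2 := Finset.ext_iff.1 hAB x
      rw [mem_union, mem_union] at h2
      have h3 : x ∈ A → x ∉ R := fun h => mem_compl.1 (hA.1 h)
      have h4 : x ∈ B → x ∉ R := fun h => mem_compl.1 (hB.1 h)
      tauto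
    rw [← hc]
    refine card_le_mul_card_image 𝒮 _ ?_
    intro F hF
    rw [mem_image] at hF
    obtain ⟨S₀, hS₀, rfl⟩ := hF
    rw [h𝒮, mem_filter, mem_powersetCard] at hS₀
    refine le_trans (card_le_card ?_) (card_fiber hG m S₀ hS₀.1.2)
    intro S hS
    rw [mem_filter] at hS ⊢
    rw [h𝒮, mem_filter] at hS
    exact ⟨hS.1.1, hS.2⟩

open Classical in
/-- If `G` is typical and `H` is not isomorphic to `G` then some small induced subgraph of `G` is
not an induced subgraph of `H`. -/
lemma exists_missing {G H : SimpleGraph V} {k q : ℕ} (hk : 0 < k) (hG : NoDisj G k)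
    (hq : q + 2 ≤ Fintype.card V)
    (hsep : 2 * (((univ : Finset V).powersetCard q).filter fun Q => NonSep G (3 * k) Q).card <
      (Fintype.card V).choose q)
    (hGH : ¬ Nonempty (G ≃g H)) :
    ∃ T : SimpleGraph (Fin (q + 2)), Nonempty (T ↪g G) ∧ ¬ Nonempty (T ↪g H) := by
  have hrec := mt (recon G H q hq ?_) hGH
  · push Not at hrec
    obtain ⟨R, hR, hno⟩ := hrec
    let e : Fin (q + 2) ≃ R := (R.equivFinOfCardEq hR).symm
    refine ⟨G.comap fun i => (e i : V), ⟨⟨⟨fun i => (e i : V), fun i j h => ?_⟩, ?_⟩⟩, ?_⟩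
    · exact e.injective (Subtype.ext h)
    · intro a b
      exact Iff.rfl
    · rintro ⟨ι⟩
      refine hno (fun x => if hx : x ∈ R then ι (e.symm ⟨x, hx⟩) else x) ⟨?_, ?_⟩
      · intro x hx y hy hxy
        have hx' : x ∈ R := by exact_mod_cast hx
        have hy' : y ∈ R := by exact_mod_cast hy
        simp only [hx', hy', dif_pos] at hxy
        have := e.symm.injective (ι.injective hxy)
        simpa using this
      · intro x hx y hy
        simp only [hx, hy, dif_pos]
        rw [ι.map_adj_iff]
        simp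
  · have hsplit := card_filter_add_card_filter_not (s := (univ : Finset V).powersetCard q)
      (fun Q => NonSep G (3 * k) Q)
    rw [card_powersetCard, card_univ] at hsplit
    rw [card_powersetCard, card_univ]
    have hle : (((univ : Finset V).powersetCard q).filter fun Q => ¬ NonSep G (3 * k) Q).card ≤
        (((univ : Finset V).powersetCard q).filter fun Q => Good G Q).card := by
      refine card_le_card ?_
      intro Q hQ
      rw [mem_filter] at hQ ⊢
      exact ⟨hQ.1, good_of_sep hk hG (not_nonSep hQ.2)⟩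
    omega

end Q122.Harary
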