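import Pool.Agent.Q122.Harary.Recon

set_option autoImplicit false

/-!
# Typical properties of random graphs
-/

namespace Q122.Harary

open Finset
open scoped symmDiff

set_option linter.unusedSectionVars false

variable {V : Type} [Fintype V] [DecidableEq V]

/-- No two disjoint isomorphic induced subgraphs on `k` vertices. -/
def NoDisj (G : SimpleGraph V) (k : ℕ) : Prop :=
  ∀ f g : Fin k → V, Function.Injective f → Function.Injective g → (∀ i j, f i ≠ g j) →
    ¬ ∀ i j, (G.Adj (f i) (f j) ↔ G.Adj (g i) (g j))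

open Classical in
/-- The vertices of `Q` which distinguish `a` from `b`. -/
noncomputable def diffSet (G : SimpleGraph V) (Q : Finset V) (a b : V) : Finset V :=
  Q.filter fun w => w ≠ a ∧ w ≠ b ∧ ¬ (G.Adj a w ↔ G.Adj b w)

/-- Every two vertices are distinguished by at least `s` vertices of `Q`. -/
def Sep (G : SimpleGraph V) (s : ℕ) (Q : Finset V) : Prop :=
  ∀ a b, a ≠ b → s ≤ (diffSet G Q a b).card

/-- The negation of `Sep`. -/
def NonSep (G : SimpleGraph V) (s : ℕ) (Q : Finset V) : Prop :=
  ∃ a b, a ≠ b ∧ (diffSet G Q a b).card < s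

lemma not_nonSep {G : SimpleGraph V} {s : ℕ} {Q : Finset V} (h : ¬ NonSep G s Q) : Sep G s Q := by
  unfold NonSep at h
  push Not at h
  exact h

/-- A version of `NoDisj` for finsets. -/
lemma NoDisj.finset {G : SimpleGraph V} {k : ℕ} (hG : NoDisj G k) (A : Finset V) (f : V → V)
    (hf : Set.InjOn f (A : Set V)) (hadj : ∀ a ∈ A, ∀ b ∈ A, (G.Adj (f a) (f b) ↔ G.Adj a b))
    (hdisj : ∀ a ∈ A, f a ∉ A) : A.card < k := by
  by_contra hcon
  push Not at hcon
  obtain ⟨B, hBA, hBk⟩ := exists_subset_card_eq hcon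
  let e : Fin k ≃ B := (B.equivFinOfCardEq hBk).symm
  refine hG (fun i => (e i : V)) (fun i => f (e i)) ?_ ?_ ?_ ?_
  · intro i j h
    exact e.injective (Subtype.ext h)
  · intro i j h
    have := hf (by exact_mod_cast hBA (e i).2) (by exact_mod_cast hBA (e j).2) h
    exact e.injective (Subtype.ext this)
  · intro i j h
    exact hdisj _ (hBA (e j).2) (h ▸ hBA (e i).2)
  · intro i j
    exact (hadj _ (hBA (e i).2) _ (hBA (e j).2)).symm

lemma good_of_sep {G : SimpleGraph V} {k : ℕ} (hk : 0 < k) (hG : NoDisj G k) {Q : Finset V}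
    (hQ : Sep G (3 * k) Q) : Good G Q := by
  classical
  constructor
  · intro f hf a ha
    by_contra hfa
    set M := Q.filter fun x => f x ≠ x with hM
    have hMsub : diffSet G Q a (f a) ⊆ M := by
      intro w hw
      rw [diffSet, mem_filter] at hw
      obtain ⟨hwQ, hwa, hwfa, hadj⟩ := hw
      rw [hM, mem_filter]
      refine ⟨hwQ, fun hfw => hadj ?_⟩
      have := hf.2 a ha w hwQ
      rw [hfw] at this
      exact this.symm
    have hM3 : 3 * k ≤ M.card := (hQ a (f a) (Ne.symm hfa)).trans (card_le_card hMsub)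
    -- a maximal `A ⊆ M` disjoint from its image
    obtain ⟨A, hAmem, hAmax⟩ := exists_max_image (M.powerset.filter fun A => Disjoint A (A.image f))
      card ⟨∅, by simp⟩
    rw [mem_filter, mem_powerset] at hAmem
    obtain ⟨hAM, hAd⟩ := hAmem
    have hMQ : M ⊆ Q := filter_subset _ _
    have hcover : M ⊆ A ∪ A.image f ∪ M.filter fun x => f x ∈ A := by
      intro x hx
      by_contra hx'
      simp only [mem_union, mem_filter, not_or, not_and] at hx'
      obtain ⟨⟨hxA, hxf⟩, hfx⟩ := hx'
      have hfx := hfx hx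
      have hins : insert x A ∈ M.powerset.filter fun A => Disjoint A (A.image f) := by
        rw [mem_filter, mem_powerset]
        refine ⟨insert_subset hx hAM, ?_⟩
        rw [image_insert, disjoint_insert_left, mem_insert, not_or]
        refine ⟨⟨?_, hxf⟩, ?_⟩
        · rw [hM, mem_filter] at hx
          exact fun h => hx.2 h.symm
        · rw [disjoint_insert_right]
          exact ⟨hfx, hAd⟩
      have := hAmax _ hins
      rw [card_insert_of_notMem hxA] at this
      omega
    have h3 : (M.filter fun x => f x ∈ A).card ≤ A.card := by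
      refine card_le_card_of_injOn f (fun x hx => ?_) ?_
      · exact (mem_filter.1 hx).2
      · intro x hx y hy h
        have hx' : x ∈ M.filter fun x => f x ∈ A := by exact_mod_cast hx
        have hy' : y ∈ M.filter fun x => f x ∈ A := by exact_mod_cast hy
        exact hf.1 (by exact_mod_cast hMQ (mem_filter.1 hx').1)
          (by exact_mod_cast hMQ (mem_filter.1 hy').1) h
    have h4 : M.card ≤ 3 * A.card := by
      refine (card_le_card hcover).trans ((card_union_le _ _).trans ?_)
      have := card_union_le A (A.image f)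
      have := card_image_le (s := A) (f := f)
      omega
    have hlt := hG.finset A f (hf.1.mono (by exact_mod_cast hAM.trans hMQ))
      (fun x hx y hy => hf.2 x (hMQ (hAM hx)) y (hMQ (hAM hy)))
      (fun x hx h => disjoint_left.1 hAd h (mem_image_of_mem f hx))
    omega
  · intro u v hu hv huv
    by_contra hne
    have h1 := hQ u v hne
    have h2 : (diffSet G Q u v).card = 0 := by
      rw [card_eq_zero, diffSet, filter_eq_empty_iff]
      rintro w hw ⟨-, -, h⟩
      exact h (huv w hw)
    omega

/-! ### Counting -/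

lemma symmDiff_adj (G H : SimpleGraph V) (a b : V) :
    (G ∆ H).Adj a b ↔ ¬ (G.Adj a b ↔ H.Adj a b) := by
  rw [symmDiff, SimpleGraph.sup_adj, SimpleGraph.sdiff_adj, SimpleGraph.sdiff_adj]
  tauto

open Classical in
/-- Number of graphs with a property. -/
noncomputable def num (p : SimpleGraph V → Prop) : ℕ := ((univ : Finset (SimpleGraph V)).filter p).card

lemma num_mono {p q : SimpleGraph V → Prop} (h : ∀ G, p G → q G) : num p ≤ num q := by
  classical
  refine card_le_card ?_
  intro G hG
  rw [mem_filter] at hG ⊢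
  exact ⟨hG.1, h G hG.2⟩

open Classical in
lemma num_exists_le {ι : Type} [Fintype ι] (p : ι → SimpleGraph V → Prop) :
    num (fun G => ∃ i, p i G) ≤ ∑ i, num (p i) := by
  unfold num
  refine le_trans (card_le_card (fun G hG => ?_)) card_biUnion_le
  rw [@mem_filter _ _ (Classical.decPred _)] at hG
  obtain ⟨i, hi⟩ := hG.2
  rw [mem_biUnion]
  exact ⟨i, mem_univ i, by simpa using hi⟩

open Classical in
lemma num_eq_zero {p : SimpleGraph V → Prop} (h : ∀ G, ¬ p G) : num p = 0 := by
  unfold num
  exact card_eq_zero.2 (filter_eq_empty_iff.2 fun G _ => h G)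

lemma num_le_all (p : SimpleGraph V → Prop) : num p ≤ Fintype.card (SimpleGraph V) := by
  classical
  exact card_le_univ _

lemma disj_count (k : ℕ) (f g : Fin k → V) (hf : Function.Injective f)
    (hfg : ∀ i j, f i ≠ g j) :
    num (fun G : SimpleGraph V => ∀ i j, (G.Adj (f i) (f j) ↔ G.Adj (g i) (g j))) *
      Fintype.card (SimpleGraph (Fin k)) ≤ Fintype.card (SimpleGraph V) := by
  classical
  unfold num
  rw [← card_univ (α := SimpleGraph (Fin k)), ← card_product, ← card_univ (α := SimpleGraph V)]
  refine card_le_card_of_injOn (fun x => x.1 ∆ (SimpleGraph.map f x.2)) (fun x _ => by simp) ?_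
  rintro ⟨G, b⟩ h1 ⟨G', b'⟩ h1' hX
  simp only [coe_product, Set.mem_prod, mem_coe, mem_filter, mem_univ, true_and, and_true] at h1 h1'
  simp only at hX
  have key : ∀ (G : SimpleGraph V) (b : SimpleGraph (Fin k)),
      (∀ i j, (G.Adj (f i) (f j) ↔ G.Adj (g i) (g j))) → ∀ i j,
      (b.Adj i j ↔ ¬ ((G ∆ (SimpleGraph.map f b)).Adj (f i) (f j) ↔
        (G ∆ (SimpleGraph.map f b)).Adj (g i) (g j))) := by
    intro G b hG i j
    rw [symmDiff_adj, symmDiff_adj]
    have e1 : (SimpleGraph.map f b).Adj (f i) (f j) ↔ b.Adj i j :=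
      SimpleGraph.map_adj_apply (G := b) (f := ⟨f, hf⟩) (a := i) (b := j)
    have e2 : ¬ (SimpleGraph.map f b).Adj (g i) (g j) := by
      rw [SimpleGraph.map_adj']
      rintro ⟨-, u, v, -, hu, -⟩
      exact hfg u i hu
    rw [e1]
    have := hG i j
    tauto
  have hb : b = b' := by
    ext i j
    rw [key G b h1 i j, key G' b' h1' i j, hX]
  subst hb
  have hG : G = G' := symmDiff_left_injective _ hX
  rw [hG]

lemma nodisj_count (k : ℕ) :
    num (fun G : SimpleGraph V => ¬ NoDisj G k) * Fintype.card (SimpleGraph (Fin k)) ≤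
      Fintype.card V ^ (2 * k) * Fintype.card (SimpleGraph V) := by
  classical
  have h1 : num (fun G : SimpleGraph V => ¬ NoDisj G k) ≤
      num (fun G : SimpleGraph V => ∃ fg : (Fin k → V) × (Fin k → V), Function.Injective fg.1 ∧
        (∀ i j, fg.1 i ≠ fg.2 j) ∧
        ∀ i j, (G.Adj (fg.1 i) (fg.1 j) ↔ G.Adj (fg.2 i) (fg.2 j))) := by
    refine num_mono fun G hG => ?_
    unfold NoDisj at hG
    push Not at hG
    obtain ⟨f, g, hf, -, hfg, h⟩ := hG
    exact ⟨(f, g), hf, hfg, h⟩
  refine le_trans (Nat.mul_le_mul_right _ (h1.trans (num_exists_le _))) ?_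
  rw [sum_mul]
  have h2 : ∀ fg ∈ (univ : Finset ((Fin k → V) × (Fin k → V))),
      num (fun G : SimpleGraph V => Function.Injective fg.1 ∧ (∀ i j, fg.1 i ≠ fg.2 j) ∧
        ∀ i j, (G.Adj (fg.1 i) (fg.1 j) ↔ G.Adj (fg.2 i) (fg.2 j))) *
        Fintype.card (SimpleGraph (Fin k)) ≤ Fintype.card (SimpleGraph V) := by
    intro fg _
    by_cases hc : Function.Injective fg.1 ∧ (∀ i j, fg.1 i ≠ fg.2 j)
    · refine le_trans (Nat.mul_le_mul_right _ (num_mono fun G hG => hG.2.2)) ?_
      exact disj_count k fg.1 fg.2 hc.1 hc.2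
    · have : num (fun G : SimpleGraph V => Function.Injective fg.1 ∧ (∀ i j, fg.1 i ≠ fg.2 j) ∧
        ∀ i j, (G.Adj (fg.1 i) (fg.1 j) ↔ G.Adj (fg.2 i) (fg.2 j))) = 0 := by
        refine num_eq_zero ?_
        rintro G ⟨h, h', -⟩
        exact hc ⟨h, h'⟩
      rw [this]
      simp
  refine (sum_le_card_nsmul _ _ _ h2).trans ?_
  rw [card_univ, Fintype.card_prod, Fintype.card_fun, Fintype.card_fin, smul_eq_mul, two_mul,
    pow_add]

/-! ### Small subsets -/

lemma card_small (A : Finset V) (s : ℕ) :
    (A.powerset.filter fun D => D.card ≤ s).card ≤ (A.card + 1) ^ s := by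
  classical
  induction s with
  | zero =>
    rw [pow_zero]
    refine card_le_one.2 fun D hD D' hD' => ?_
    simp only [mem_filter, nonpos_iff_eq_zero, card_eq_zero] at hD hD'
    rw [hD.2, hD'.2]
  | succ s ih =>
    have hsub : (A.powerset.filter fun D => D.card ≤ s + 1) ⊆
        ((A.powerset.filter fun D => D.card ≤ s) ×ˢ (insert none (A.map Function.Embedding.some))).image
          (fun x : Finset V × Option V => x.2.elim x.1 fun a => insert a x.1) := by
      intro D hD
      simp only [mem_filter, mem_powerset] at hD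
      rw [mem_image]
      by_cases hs : D.card ≤ s
      · exact ⟨(D, none), by simp [hD.1, hs], rfl⟩
      · have hne : D.Nonempty := by
          rw [← card_pos]
          omega
        obtain ⟨a, ha⟩ := hne
        refine ⟨(D.erase a, some a), ?_, ?_⟩
        · simp only [mem_product, mem_filter, mem_powerset, mem_insert, reduceCtorEq, mem_map,
            Function.Embedding.some_apply, Option.some.injEq, exists_eq_right, false_or]
          refine ⟨⟨(erase_subset a D).trans hD.1, ?_⟩, hD.1 ha⟩
          rw [card_erase_of_mem ha]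
          omega
        · simp [insert_erase ha]
    refine (card_le_card hsub).trans (card_image_le.trans ?_)
    rw [card_product, pow_succ]
    refine Nat.mul_le_mul ih ?_
    rw [card_insert_of_notMem (by simp), card_map]

/-- The star with centre `a` and leaves in `W`. -/
def star (a : V) (W : Finset V) : SimpleGraph V :=
  SimpleGraph.fromRel fun x y => x = a ∧ y ∈ W

lemma star_adj (a : V) (W : Finset V) (x y : V) :
    (star a W).Adj x y ↔ x ≠ y ∧ ((x = a ∧ y ∈ W) ∨ (y = a ∧ x ∈ W)) := by
  rw [star, SimpleGraph.fromRel_adj]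

lemma sep_count (Q : Finset V) (a b : V) (hab : a ≠ b) (s : ℕ) :
    num (fun G : SimpleGraph V => (diffSet G Q a b).card ≤ s) * 2 ^ ((Q.erase a).erase b).card ≤
      (Q.card + 1) ^ s * Fintype.card (SimpleGraph V) := by
  classical
  set Q' := (Q.erase a).erase b with hQ'
  have hQ'a : a ∉ Q' := by simp [hQ']
  have hQ'b : b ∉ Q' := by simp [hQ']
  have hQ'Q : Q' ⊆ Q := (erase_subset _ _).trans (erase_subset _ _)
  have hD : ∀ G : SimpleGraph V, diffSet G Q a b ⊆ Q' := by
    intro G w hw
    rw [diffSet, mem_filter] at hw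
    rw [hQ', mem_erase, mem_erase]
    exact ⟨hw.2.2.1, hw.2.1, hw.1⟩
  have key : ∀ (G : SimpleGraph V) (W : Finset V), W ⊆ Q' →
      diffSet (G ∆ star a W) Q a b = diffSet G Q a b ∆ W := by
    intro G W hW
    ext w
    rw [mem_symmDiff, diffSet, diffSet, mem_filter, mem_filter, symmDiff_adj, symmDiff_adj,
      star_adj, star_adj]
    by_cases hwW : w ∈ W
    · have hw' := hW hwW
      have hwa : w ≠ a := fun h => hQ'a (h ▸ hw')
      have hwb : w ≠ b := fun h => hQ'b (h ▸ hw')
      have hbW : b ∉ W := fun h => hQ'b (hW h)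
      have hwQ := hQ'Q hw'
      simp only [hwQ, hwa, hwb, hwW, ne_eq, not_false_eq_true, true_and, not_true_eq_false,
        and_false, or_false, hwa.symm, hab.symm, false_and, and_true, false_or]
      tauto
    · have hbW : b ∉ W := fun h => hQ'b (hW h)
      simp only [hwW, and_false, false_and, or_false, hab.symm, not_false_eq_true, and_true, hbW,
        false_or]
      by_cases hwa : w = a
      · subst hwa
        simp
      · by_cases haW : a ∈ W
        · exact absurd (hW haW) hQ'a
        · simp only [hwa, haW, and_false, not_false_eq_true, true_and, ne_eq]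
          tauto
  unfold num
  rw [← card_powerset, ← card_product]
  have htarget : ((Q'.powerset.filter fun D => D.card ≤ s) ×ˢ (univ : Finset (SimpleGraph V))).card ≤
      (Q.card + 1) ^ s * Fintype.card (SimpleGraph V) := by
    rw [card_product, card_univ]
    refine Nat.mul_le_mul_right _ ((card_small Q' s).trans ?_)
    exact Nat.pow_le_pow_left (Nat.add_le_add_right (card_le_card hQ'Q) 1) s
  refine le_trans (card_le_card_of_injOn
    (fun x : SimpleGraph V × Finset V => (diffSet x.1 Q a b, x.1 ∆ star a x.2)) ?_ ?_) htarget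
  · rintro ⟨G, W⟩ h
    simp only [coe_product, Set.mem_prod, mem_coe, mem_filter, mem_univ, true_and,
      mem_powerset] at h
    simp only [coe_product, Set.mem_prod, mem_coe, mem_filter, mem_powerset, mem_univ, and_true]
    exact ⟨hD G, h.1⟩
  · rintro ⟨G, W⟩ h ⟨G', W'⟩ h' hX
    simp only [coe_product, Set.mem_prod, mem_coe, mem_filter, mem_univ, true_and,
      mem_powerset] at h h'
    simp only [Prod.mk.injEq] at hX
    have e1 := key G W h.2
    have e2 := key G' W' h'.2
    rw [hX.2, e2, hX.1] at e1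
    have hW : W' = W := symmDiff_right_injective _ e1
    subst hW
    have hG : G = G' := symmDiff_left_injective _ hX.2
    rw [hG]

lemma nonsep_count (Q : Finset V) (s : ℕ) :
    num (fun G : SimpleGraph V => NonSep G (s + 1) Q) * 2 ^ Q.card ≤
      Fintype.card V ^ 2 * (4 * ((Q.card + 1) ^ s * Fintype.card (SimpleGraph V))) := by
  classical
  have h1 : num (fun G : SimpleGraph V => NonSep G (s + 1) Q) ≤
      num (fun G : SimpleGraph V => ∃ ab : V × V, ab.1 ≠ ab.2 ∧
        (diffSet G Q ab.1 ab.2).card ≤ s) := by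
    refine num_mono fun G hG => ?_
    obtain ⟨a, b, hab, h⟩ := hG
    exact ⟨(a, b), hab, by simp only; omega⟩
  refine le_trans (Nat.mul_le_mul_right _ (h1.trans (num_exists_le _))) ?_
  rw [sum_mul]
  have h2 : ∀ ab ∈ (univ : Finset (V × V)),
      num (fun G : SimpleGraph V => ab.1 ≠ ab.2 ∧ (diffSet G Q ab.1 ab.2).card ≤ s) *
        2 ^ Q.card ≤ 4 * ((Q.card + 1) ^ s * Fintype.card (SimpleGraph V)) := by
    intro ab _
    by_cases hc : ab.1 ≠ ab.2
    · have h3 := sep_count Q ab.1 ab.2 hc s
      have h4 : Q.card ≤ ((Q.erase ab.1).erase ab.2).card + 2 := by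
        have e1 := pred_card_le_card_erase (s := Q) (a := ab.1)
        have e2 := pred_card_le_card_erase (s := Q.erase ab.1) (a := ab.2)
        omega
      have h5 : 2 ^ Q.card ≤ 4 * 2 ^ ((Q.erase ab.1).erase ab.2).card := by
        refine (Nat.pow_le_pow_right (by norm_num) h4).trans ?_
        rw [pow_add]
        omega
      calc _ ≤ num (fun G : SimpleGraph V => (diffSet G Q ab.1 ab.2).card ≤ s) *
            (4 * 2 ^ ((Q.erase ab.1).erase ab.2).card) :=
            Nat.mul_le_mul (num_mono fun G hG => hG.2) h5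
        _ = 4 * (num (fun G : SimpleGraph V => (diffSet G Q ab.1 ab.2).card ≤ s) *
            2 ^ ((Q.erase ab.1).erase ab.2).card) := by ring
        _ ≤ _ := Nat.mul_le_mul_left _ h3
    · rw [num_eq_zero fun G hG => hc hG.1]
      simp
  refine (sum_le_card_nsmul _ _ _ h2).trans ?_
  rw [card_univ, Fintype.card_prod, smul_eq_mul, ← sq]

open Classical in
lemma num_mul_le_sum (p : SimpleGraph V → Prop) (b : SimpleGraph V → ℕ) (C : ℕ)
    (h : ∀ G, p G → C ≤ b G) : num p * C ≤ ∑ G, b G := by
  unfold num
  rw [← smul_eq_mul, ← sum_const]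
  refine le_trans (sum_le_sum fun G hG => h G ?_) (sum_le_sum_of_subset (filter_subset p _))
  exact (mem_filter.1 hG).2

open Classical in
lemma sum_card_comm (S : Finset (Finset V)) (r : SimpleGraph V → Finset V → Prop) :
    ∑ G : SimpleGraph V, (S.filter fun Q => r G Q).card = ∑ Q ∈ S, num fun G => r G Q := by
  unfold num
  simp only [card_filter]
  rw [sum_comm]

open Classical in
/-- All but few graphs have mostly separating `q`-sets. -/
lemma frac_count (q s : ℕ) (hq : q ≤ Fintype.card V) :
    num (fun G : SimpleGraph V => (Fintype.card V).choose q ≤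
      2 * (((univ : Finset V).powersetCard q).filter fun Q => NonSep G (s + 1) Q).card) * 2 ^ q ≤
      8 * Fintype.card V ^ 2 * (q + 1) ^ s * Fintype.card (SimpleGraph V) := by
  set C := (Fintype.card V).choose q with hC
  have hCpos : 0 < C := Nat.choose_pos hq
  set b : SimpleGraph V → ℕ := fun G =>
    (((univ : Finset V).powersetCard q).filter fun Q => NonSep G (s + 1) Q).card with hb
  have h1 : num (fun G : SimpleGraph V => C ≤ 2 * b G) * C ≤ 2 * ∑ G, b G := by
    rw [mul_sum]
    exact num_mul_le_sum _ _ _ fun G hG => hG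
  have h2 : ∑ G, b G = ∑ Q ∈ (univ : Finset V).powersetCard q,
      num (fun G : SimpleGraph V => NonSep G (s + 1) Q) := sum_card_comm _ _
  have h3 : (∑ G, b G) * 2 ^ q ≤
      C * (Fintype.card V ^ 2 * (4 * ((q + 1) ^ s * Fintype.card (SimpleGraph V)))) := by
    rw [h2, sum_mul]
    have h4 : ∀ Q ∈ (univ : Finset V).powersetCard q,
        num (fun G : SimpleGraph V => NonSep G (s + 1) Q) * 2 ^ q ≤
        Fintype.card V ^ 2 * (4 * ((q + 1) ^ s * Fintype.card (SimpleGraph V))) := by
      intro Q hQ
      have hQc := (mem_powersetCard.1 hQ).2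
      have := nonsep_count Q s
      rw [hQc] at this
      exact this
    refine (sum_le_card_nsmul _ _ _ h4).trans ?_
    rw [card_powersetCard, card_univ, smul_eq_mul]
  refine Nat.le_of_mul_le_mul_left ?_ hCpos
  calc C * (num (fun G : SimpleGraph V => C ≤ 2 * b G) * 2 ^ q)
      = (num (fun G : SimpleGraph V => C ≤ 2 * b G) * C) * 2 ^ q := by ring
    _ ≤ (2 * ∑ G, b G) * 2 ^ q := Nat.mul_le_mul_right _ h1
    _ = 2 * ((∑ G, b G) * 2 ^ q) := by ring
    _ ≤ 2 * (C * (Fintype.card V ^ 2 * (4 * ((q + 1) ^ s * Fintype.card (SimpleGraph V))))) :=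
        Nat.mul_le_mul_left _ h3
    _ = _ := by ring

end Q122.Harary
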